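import Pool.Agent.Lib.MP_a349b4_lc.LG.Defs

/-! Structured programs, their translation to the machine, and proof rules with time bounds. -/

set_option autoImplicit false

namespace Pool.Agent.Lib.MP_a349b4_lc.LG

open Function

inductive Cmd : Type
  | skip : Cmd
  | const (i c : ℕ) : Cmd
  | bin (o : Op) (i j l : ℕ) : Cmd
  | load (i j : ℕ) : Cmd
  | read (i j : ℕ) : Cmd
  | write (i j : ℕ) : Cmd
  | seq (a b : Cmd) : Cmd
  | ite (i j : ℕ) (a b : Cmd) : Cmd
  | loop (i j : ℕ) (a : Cmd) : Cmd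

def Cmd.len : Cmd → ℕ
  | .skip => 0
  | .seq a b => a.len + b.len
  | .ite _ _ a b => b.len + a.len + 2
  | .loop _ _ a => a.len + 3
  | _ => 1

def Cmd.comp : Cmd → ℕ → List Instr
  | .skip, _ => []
  | .const i c, _ => [.const i c]
  | .bin o i j l, _ => [.bin o i j l]
  | .load i j, _ => [.load i j]
  | .read i j, _ => [.read i j]
  | .write i j, _ => [.write i j]
  | .seq a b, o => a.comp o ++ b.comp (o + a.len)
  | .ite i j a b, o => .jlt i j (o + 1 + b.len + 1) :: (b.comp (o + 1) ++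
      .jmp (o + 1 + b.len + 1 + a.len) :: a.comp (o + 1 + b.len + 1))
  | .loop i j a, o => .jlt i j (o + 1 + 1) :: .jmp (o + 1 + 1 + a.len + 1) ::
      (a.comp (o + 1 + 1) ++ [.jmp o])

theorem Cmd.length_comp (c : Cmd) : ∀ o, (c.comp o).length = c.len := by
  induction c with
  | seq a b iha ihb => intro o; simp [Cmd.comp, Cmd.len, iha, ihb]
  | ite i j a b iha ihb => intro o; simp [Cmd.comp, Cmd.len, iha, ihb]; omega
  | loop i j a iha => intro o; simp [Cmd.comp, Cmd.len, iha]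
  | _ => intro o; rfl

inductive Exec (w : ℕ) (D : List ℕ) :
    Cmd → (ℕ → ℕ) → (ℕ → ℕ) → (ℕ → ℕ) → (ℕ → ℕ) → ℕ → Prop
  | skip (r W) : Exec w D .skip r W r W 0
  | const (i c r W) : Exec w D (.const i c) r W (update r i (c % 2 ^ w)) W 1
  | bin (o i j l r W) :
      Exec w D (.bin o i j l) r W (update r i (o.ev (r j) (r l) % 2 ^ w)) W 1
  | load (i j r W) : Exec w D (.load i j) r W (update r i (D.getD (r j) 0)) W 1
  | read (i j r W) : Exec w D (.read i j) r W (update r i (W (r j))) W 1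
  | write (i j r W) : Exec w D (.write i j) r W r (update W (r i) (r j)) 1
  | seq {a b r W r1 W1 r2 W2 t1 t2} : Exec w D a r W r1 W1 t1 → Exec w D b r1 W1 r2 W2 t2 →
      Exec w D (.seq a b) r W r2 W2 (t1 + t2)
  | iteT {i j a b r W r1 W1 t} : r i < r j → Exec w D a r W r1 W1 t →
      Exec w D (.ite i j a b) r W r1 W1 (t + 1)
  | iteF {i j a b r W r1 W1 t} : ¬ r i < r j → Exec w D b r W r1 W1 t →
      Exec w D (.ite i j a b) r W r1 W1 (t + 2)
  | loopF {i j a r W} : ¬ r i < r j → Exec w D (.loop i j a) r W r W 2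
  | loopT {i j a r W r1 W1 r2 W2 t1 t2} : r i < r j → Exec w D a r W r1 W1 t1 →
      Exec w D (.loop i j a) r1 W1 r2 W2 t2 → Exec w D (.loop i j a) r W r2 W2 (t1 + t2 + 2)

def At (P : List Instr) (o : ℕ) (l : List Instr) : Prop :=
  ∀ k, k < l.length → P[o + k]? = l[k]?

theorem At.cons {P o a l} (h : At P o (a :: l)) : P[o]? = some a ∧ At P (o + 1) l :=
  ⟨by simpa using h 0 (by simp), fun k hk => by
    have := h (k + 1) (by simpa using hk)
    simpa [Nat.add_assoc, Nat.add_comm 1 k] using this⟩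

theorem At.append {P o l1 l2} (h : At P o (l1 ++ l2)) :
    At P o l1 ∧ At P (o + l1.length) l2 :=
  ⟨fun k hk => by
    rw [h k (by simp; omega), List.getElem?_append_left hk], fun k hk => by
    rw [Nat.add_assoc, h _ (by simp; omega), List.getElem?_append_right (by omega)]
    simp⟩

variable {P : List Instr} {w : ℕ} {D : List ℕ}

theorem Exec.sim {c r W r' W' t} (h : Exec w D c r W r' W' t) : ∀ o, At P o (c.comp o) →
    ∀ f, run P w D (f + t) o r W = run P w D f (o + c.len) r' W' := by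
  induction h with
  | skip => intro o _ f; rfl
  | const | bin | load | read | write =>
    intro o h f
    rw [run, h.cons.1]
    rfl
  | @seq a b r W r1 W1 r2 W2 t1 t2 _ _ iha ihb =>
    intro o h f
    have h2 := h.append
    rw [Cmd.length_comp] at h2
    rw [show f + (t1 + t2) = f + t2 + t1 by omega, iha o h2.1, ihb _ h2.2, Cmd.len,
      Nat.add_assoc]
  | @iteT i j a b r W r1 W1 t hc _ ih =>
    intro o h f
    have h1 := h.cons
    have h2 := h1.2.append.2.cons.2
    rw [Cmd.length_comp] at h2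
    rw [← Nat.add_assoc, run, h1.1]
    simp only [hc, if_true]
    rw [ih _ h2, Cmd.len]
    congr 1
    omega
  | @iteF i j a b r W r1 W1 t hc _ ih =>
    intro o h f
    have h1 := h.cons
    have h2 := h1.2.append
    have h3 := h2.2.cons.1
    rw [Cmd.length_comp] at h3
    rw [show f + (t + 2) = f + 1 + t + 1 by omega, run, h1.1]
    simp only [hc, if_false]
    rw [ih _ h2.1, run, h3, Cmd.len]
    simp only []
    congr 1
    omega
  | @loopF i j a r W hc =>
    intro o h f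
    have h1 := h.cons
    rw [show f + 2 = f + 1 + 1 by omega, run, h1.1]
    simp only [hc, if_false]
    rw [run, h1.2.cons.1, Cmd.len]
    simp only []
    congr 1
    omega
  | @loopT i j a r W r1 W1 r2 W2 t1 t2 hc _ _ iha ihb =>
    intro o h f
    have h1 := h.cons
    have h2 := h1.2.cons.2.append
    have h3 := h2.2.cons.1
    rw [Cmd.length_comp] at h3
    rw [show f + (t1 + t2 + 2) = f + t2 + 1 + t1 + 1 by omega, run, h1.1]
    simp only [hc, if_true]
    rw [iha _ h2.1, run, h3]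
    exact ihb o h f

theorem run_succ {b : Bool} : ∀ t pc r W, run P w D t pc r W = some b →
    run P w D (t + 1) pc r W = some b := by
  intro t
  induction t with
  | zero => intro pc r W h; simp [run] at h
  | succ t ih =>
    intro pc r W h
    rw [run] at h ⊢
    split at h
    all_goals first
      | exact ih _ _ _ h
      | exact h
      | (split at h
         · rw [if_pos ‹_›]
           exact ih _ _ _ h
         · rw [if_neg ‹_›]
           exact ih _ _ _ h)

theorem run_mono {b : Bool} {t t' pc r W} (h : run P w D t pc r W = some b) (ht : t ≤ t') :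
    run P w D t' pc r W = some b := by
  induction ht with
  | refl => exact h
  | step _ ih => exact run_succ _ _ _ _ ih

/-- The command stops within `t` steps in a state that satisfies `Q`. -/
def Tr (w : ℕ) (D : List ℕ) (c : Cmd) (r W : ℕ → ℕ) (Q : (ℕ → ℕ) → (ℕ → ℕ) → Prop)
    (t : ℕ) : Prop :=
  ∃ r' W' t', Exec w D c r W r' W' t' ∧ t' ≤ t ∧ Q r' W'

variable {r W : ℕ → ℕ} {Q Q' : (ℕ → ℕ) → (ℕ → ℕ) → Prop} {t t' : ℕ} {a b : Cmd}
  {i j l : ℕ}

theorem Tr.le (h : Tr w D a r W Q t') (ht : t' ≤ t) : Tr w D a r W Q t :=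
  let ⟨r', W', t1, h1, h2, h3⟩ := h
  ⟨r', W', t1, h1, h2.trans ht, h3⟩

theorem Tr.imp (h : Tr w D a r W Q t) (hQ : ∀ r W, Q r W → Q' r W) : Tr w D a r W Q' t :=
  let ⟨r', W', t1, h1, h2, h3⟩ := h
  ⟨r', W', t1, h1, h2, hQ _ _ h3⟩

theorem Tr.skip (h : Q r W) : Tr w D .skip r W Q t := ⟨_, _, _, .skip _ _, Nat.zero_le _, h⟩

theorem Tr.seq (h : Tr w D a r W Q' t) (h' : ∀ r W, Q' r W → Tr w D b r W Q t') :
    Tr w D (.seq a b) r W Q (t' + t) :=
  let ⟨_, _, _, h1, h2, h3⟩ := h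
  let ⟨_, _, _, k1, k2, k3⟩ := h' _ _ h3
  ⟨_, _, _, .seq h1 k1, by omega, k3⟩

theorem Tr.const {c : ℕ} (hc : c < 2 ^ w) (h : Tr w D b (update r i c) W Q t) :
    Tr w D (.seq (.const i c) b) r W Q (t + 1) :=
  Tr.seq (Q' := fun r' W' => r' = update r i c ∧ W' = W)
    ⟨_, _, _, .const _ _ _ _, le_rfl, by rw [Nat.mod_eq_of_lt hc], rfl⟩
    fun _ _ k => by rw [k.1, k.2]; exact h

theorem Tr.bin {o : Op} (v : ℕ) (hv : o.ev (r j) (r l) = v) (hc : v < 2 ^ w)
    (h : Tr w D b (update r i v) W Q t) : Tr w D (.seq (.bin o i j l) b) r W Q (t + 1) :=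
  Tr.seq (Q' := fun r' W' => r' = update r i v ∧ W' = W)
    ⟨_, _, _, .bin _ _ _ _ _ _, le_rfl, by rw [hv, Nat.mod_eq_of_lt hc], rfl⟩
    fun _ _ k => by rw [k.1, k.2]; exact h

theorem Tr.load (v : ℕ) (hv : D.getD (r j) 0 = v) (h : Tr w D b (update r i v) W Q t) :
    Tr w D (.seq (.load i j) b) r W Q (t + 1) :=
  Tr.seq (Q' := fun r' W' => r' = update r i v ∧ W' = W)
    ⟨_, _, _, .load _ _ _ _, le_rfl, by rw [hv], rfl⟩ fun _ _ k => by rw [k.1, k.2]; exact h

theorem Tr.read (v : ℕ) (hv : W (r j) = v) (h : Tr w D b (update r i v) W Q t) :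
    Tr w D (.seq (.read i j) b) r W Q (t + 1) :=
  Tr.seq (Q' := fun r' W' => r' = update r i v ∧ W' = W)
    ⟨_, _, _, .read _ _ _ _, le_rfl, by rw [hv], rfl⟩ fun _ _ k => by rw [k.1, k.2]; exact h

theorem Tr.write (u v : ℕ) (hu : r i = u) (hv : r j = v) (h : Tr w D b r (update W u v) Q t) :
    Tr w D (.seq (.write i j) b) r W Q (t + 1) :=
  Tr.seq (Q' := fun r' W' => r' = r ∧ W' = update W u v)
    ⟨_, _, _, .write _ _ _ _, le_rfl, rfl, by rw [hu, hv]⟩ fun _ _ k => by rw [k.1, k.2]; exact h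

theorem Tr.ite (h1 : r i < r j → Tr w D a r W Q t) (h2 : ¬ r i < r j → Tr w D b r W Q t) :
    Tr w D (.ite i j a b) r W Q (t + 2) := by
  by_cases h : r i < r j
  · obtain ⟨_, _, _, k1, k2, k3⟩ := h1 h
    exact ⟨_, _, _, .iteT h k1, by omega, k3⟩
  · obtain ⟨_, _, _, k1, k2, k3⟩ := h2 h
    exact ⟨_, _, _, .iteF h k1, by omega, k3⟩

theorem Tr.loop (I : ℕ → (ℕ → ℕ) → (ℕ → ℕ) → Prop) (N : ℕ)
    (hs : ∀ m r W, m < N → I m r W → r i < r j ∧ Tr w D a r W (I (m + 1)) t)
    (he : ∀ r W, I N r W → ¬ r i < r j) (h0 : I 0 r W) :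
    Tr w D (.loop i j a) r W (I N) (N * (t + 2) + 2) := by
  have key : ∀ d m r W, m + d = N → I m r W →
      Tr w D (.loop i j a) r W (I N) (d * (t + 2) + 2) := by
    intro d
    induction d with
    | zero =>
      intro m r W hm h
      obtain rfl : m = N := hm
      exact ⟨_, _, _, .loopF (he _ _ h), by omega, h⟩
    | succ d ih =>
      intro m r W hm h
      obtain ⟨k0, _, _, _, k1, k2, k3⟩ := hs m r W (by omega) h
      obtain ⟨_, _, _, l1, l2, l3⟩ := ih (m + 1) _ _ (by omega) k3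
      exact ⟨_, _, _, .loopT k0 k1 l1, by rw [Nat.succ_mul]; omega, l3⟩
  exact key N 0 r W (by omega) h0

end Pool.Agent.Lib.MP_a349b4_lc.LG
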