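import Pool.Agent.Lib.MP_a349b4_lc.LG.Leaf

/-! The test for repeated entries, and the copying of an adjacency list. -/

set_option autoImplicit false

namespace Pool.Agent.Lib.MP_a349b4_lc.LG

open Function

def dupBody (ρ : ℕ) : Cmd :=
  .seq (.read (ρ + 20) (ρ + 19)) <|
  .seq (ifeq (ρ + 20) (ρ + 18) (.seq (.const (ρ + 32) 1) .skip)) <|
  .seq (.bin .add (ρ + 19) (ρ + 19) 1) .skip

def dup (ρ : ℕ) : Cmd :=
  .seq (.bin .add (ρ + 19) (ρ + 13) 0) (.loop (ρ + 19) (ρ + 17) (dupBody ρ))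

theorem dup_spec {e : Env} (he : e.Ok) {ρ a j y : ℕ} {r W : ℕ → ℕ} (hG : Glob e r)
    (h13 : r (ρ + 13) = a) (h17 : r (ρ + 17) = a + j) (h18 : r (ρ + 18) = y) (hB : a + j ≤ e.B) :
    Tr e.w e.D (dup ρ) r W (fun r' W' => W' = W ∧ (∀ i < ρ + 19, r' i = r i) ∧
      (0 < r' (ρ + 32) ↔ 0 < r (ρ + 32) ∨ ∃ q < j, W (a + q) = y)) (j * (7 + 2) + 2 + 1) := by
  have b4 := he.b4
  refine Tr.bin a (by simp [Op.ev, h13, hG.g0]) (by omega) ?_
  refine (Tr.loop (fun m r' W' => W' = W ∧ (∀ i < ρ + 19, r' i = r i) ∧ r' (ρ + 19) = a + m ∧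
    (0 < r' (ρ + 32) ↔ 0 < r (ρ + 32) ∨ ∃ q < m, W (a + q) = y)) j ?_ ?_ ?_).imp
    fun r' W' h => ⟨h.1, h.2.1, h.2.2.2⟩
  · rintro m r' W' hm ⟨rfl, hf, p1, p2⟩
    have G := hG.frame hf (by omega)
    have k17 := (hf (ρ + 17) (by omega)).trans h17
    have k18 := (hf (ρ + 18) (by omega)).trans h18
    refine ⟨by omega, Tr.read (W' (a + m)) (by rw [p1]) ?_⟩
    refine Tr.seq (t := 5) (t' := 1) (Q' := fun r2 W2 => W2 = W' ∧ (∀ i < ρ + 20, r2 i = r' i) ∧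
      (0 < r2 (ρ + 32) ↔ 0 < r' (ρ + 32) ∨ W' (a + m) = y)) (Tr.ifeq (t := 1) (fun h => ?_)
      fun h => ?_) ?_
    · refine Tr.const (by omega) (Tr.skip ⟨rfl, fun i hi => ?_, ?_⟩)
      · rw [update_of_ne (by omega), update_of_ne (by omega)]
      · simp [k18] at h
        simp [h]
    · refine ⟨rfl, fun i hi => by rw [update_of_ne (by omega)], ?_⟩
      simp [k18] at h
      simp [h]
    rintro r2 W2 ⟨rfl, f2, p3⟩
    refine Tr.bin (a + (m + 1)) (by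
      simp [Op.ev, f2 (ρ + 19) (by omega), f2 1 (by omega), p1, G.g1, Nat.add_assoc]) (by omega)
      (Tr.skip ⟨rfl, fun i hi => ?_, by simp, ?_⟩)
    · rw [update_of_ne (by omega), f2 i (by omega), hf i hi]
    · rw [update_of_ne (by omega), p3, p2, or_assoc, Nat.exists_lt_succ_right]
  · rintro r' W' ⟨-, hf, p1, -⟩
    rw [p1, hf _ (by omega), h17]
    omega
  · exact ⟨rfl, fun i hi => by rw [update_of_ne (by omega)], by simp, by simp⟩

def copyBody (d : Bool) (ρ : ℕ) : Cmd :=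
  .seq (.bin .div (ρ + 26) (ρ + 19) (ρ + 24)) <| .seq (.bin .add (ρ + 26) (ρ + 26) (ρ + 21)) <|
  .seq (.bin .add (ρ + 26) (ρ + 26) 1) <| get (tb d) (ρ + 26) (ρ + 26) <|
  .seq (.bin .mul (ρ + 26) (ρ + 26) 6) <|
  .seq (.bin .mod (ρ + 27) (ρ + 19) (ρ + 24)) <| .seq (.bin .add (ρ + 27) (ρ + 27) (ρ + 22)) <|
  .seq (.bin .add (ρ + 27) (ρ + 27) 1) <| get (tb (!d)) (ρ + 27) (ρ + 27) <|
  .seq (.bin .add (ρ + 26) (ρ + 26) (ρ + 27)) <| .seq (.write (ρ + 15) (ρ + 26)) <|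
  .seq (.bin .add (ρ + 15) (ρ + 15) 1) <| .seq (.bin .add (ρ + 19) (ρ + 19) 1) .skip

def expand (d : Bool) (ρ : ℕ) : Cmd :=
  .seq (.bin .div (ρ + 21) (ρ + 18) 6) <| .seq (.bin .mul (ρ + 21) (ρ + 21) 8) <|
  .seq (.bin .mod (ρ + 22) (ρ + 18) 6) <| .seq (.bin .mul (ρ + 22) (ρ + 22) 8) <|
  get (tb d) (ρ + 23) (ρ + 21) <| get (tb (!d)) (ρ + 24) (ρ + 22) <|
  .seq (.bin .mul (ρ + 23) (ρ + 23) (ρ + 24)) <| .seq (.bin .add (ρ + 25) (ρ + 15) (ρ + 23)) <|
  .ite (ρ + 16) (ρ + 25) (.seq (.const (ρ + 12) 1) .skip)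
    (.seq (.const (ρ + 19) 0) (.loop (ρ + 19) (ρ + 23) (copyBody d ρ)))

theorem copy_spec {e : Env} (he : e.Ok) {d : Bool} {ρ x y b : ℕ} {r W : ℕ → ℕ} (hG : Glob e r)
    (hx : x < e.n) (hy : y < e.n) (h15 : r (ρ + 15) = b) (h19 : r (ρ + 19) = 0)
    (h21 : r (ρ + 21) = x * (e.X + 1)) (h22 : r (ρ + 22) = y * (e.X + 1))
    (h23 : r (ρ + 23) = e.deg d x * e.deg (!d) y) (h24 : r (ρ + 24) = e.deg (!d) y)
    (hX : e.deg d x * e.deg (!d) y ≤ e.X) (hB : b + e.deg d x * e.deg (!d) y ≤ e.B) :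
    Tr e.w e.D (.loop (ρ + 19) (ρ + 23) (copyBody d ρ)) r W (fun r' W' =>
      (∀ i < ρ + 19, i ≠ ρ + 15 → r' i = r i) ∧ (∀ a < b, W' a = W a) ∧
      r' (ρ + 15) = b + e.deg d x * e.deg (!d) y ∧ ∀ m < e.deg d x * e.deg (!d) y,
        W' (b + m) = e.ent d x (m / e.deg (!d) y) * e.n + e.ent (!d) y (m % e.deg (!d) y))
      (e.X * (17 + 2) + 2) := by
  have b2 := he.b2
  have b3 := he.b3
  have b4 := he.b4
  have t1 := tb_le d
  have t2 := tb_le (!d)
  obtain ⟨u, hu⟩ : ∃ u, e.deg d x = u := ⟨_, rfl⟩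
  obtain ⟨v, hv⟩ : ∃ v, e.deg (!d) y = v := ⟨_, rfl⟩
  have u1 : 1 ≤ u := hu ▸ (he.dpos d x hx).1
  have v1 : 1 ≤ v := hv ▸ (he.dpos (!d) y hy).1
  have hx1 : (x + 1) * (e.X + 1) ≤ e.n * (e.X + 1) := Nat.mul_le_mul_right _ hx
  have hy1 : (y + 1) * (e.X + 1) ≤ e.n * (e.X + 1) := Nat.mul_le_mul_right _ hy
  rw [Nat.succ_mul] at hx1 hy1
  rw [hu, hv] at h23 hX hB ⊢
  rw [hv] at h24
  have uX : u ≤ u * v := Nat.le_mul_of_pos_right _ v1
  have vX : v ≤ u * v := Nat.le_mul_of_pos_left _ u1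
  refine ((Tr.loop (t := 17) (fun m r' W' =>
    (∀ i < ρ + 26, i ≠ ρ + 15 → i ≠ ρ + 19 → r' i = r i) ∧ (∀ a < b, W' a = W a) ∧
    r' (ρ + 15) = b + m ∧ r' (ρ + 19) = m ∧ ∀ q < m,
      W' (b + q) = e.ent d x (q / v) * e.n + e.ent (!d) y (q % v)) (u * v) ?_ ?_ ?_).imp
    fun r' W' h => ⟨fun i h1 h2 => h.1 i (by omega) h2 (by omega), h.2.1, h.2.2.1,
      h.2.2.2.2⟩).le (by gcongr)
  · rintro m r' W' hm ⟨hf, hW, p1, p2, p3⟩
    have G := hG.frame (a := 10) (fun j hj => hf j (by omega) (by omega) (by omega)) le_rfl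
    have k21 := (hf (ρ + 21) (by omega) (by omega) (by omega)).trans h21
    have k22 := (hf (ρ + 22) (by omega) (by omega) (by omega)).trans h22
    have k23 := (hf (ρ + 23) (by omega) (by omega) (by omega)).trans h23
    have k24 := (hf (ρ + 24) (by omega) (by omega) (by omega)).trans h24
    have q1 : m / v < u := (Nat.div_lt_iff_lt_mul v1).2 hm
    have q2 : m % v < v := Nat.mod_lt _ v1
    have e1 := he.elt d x hx (m / v) (hu ▸ q1)
    have e2 := he.elt (!d) y hy (m % v) (hv ▸ q2)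
    have e3 : (e.ent d x (m / v) + 1) * e.n ≤ e.n * e.n := Nat.mul_le_mul_right _ e1
    rw [Nat.succ_mul] at e3
    have g1 := G.tb d
    have g2 := G.tb (!d)
    refine ⟨by omega, ?_⟩
    refine Tr.bin (m / v) (by simp [Op.ev, p2, k24]) (by omega) ?_
    refine Tr.bin (m / v + x * (e.X + 1)) (by simp [Op.ev, k21]) (by omega) ?_
    refine Tr.bin (m / v + x * (e.X + 1) + 1) (by simp [Op.ev, G.g1]) (by omega) ?_
    refine Tr.get (m / v + x * (e.X + 1) + 1) _ (by simp) (by simp [G.g4])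
      (by rw [update_of_ne (by omega), update_of_ne (by omega), update_of_ne (by omega), g1])
      (by omega) (by omega) (he.dent d x hx _ (hu ▸ q1) (by omega)) ?_
    simp only [update_idem]
    refine Tr.bin (e.ent d x (m / v) * e.n) (by simp [Op.ev, G.g6]) (by omega) ?_
    simp only [update_idem]
    refine Tr.bin (m % v) (by simp [Op.ev, p2, k24]) (by omega) ?_
    refine Tr.bin (m % v + y * (e.X + 1)) (by simp [Op.ev, k22]) (by omega) ?_
    refine Tr.bin (m % v + y * (e.X + 1) + 1) (by simp [Op.ev, G.g1]) (by omega) ?_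
    simp only [update_idem]
    refine Tr.get (m % v + y * (e.X + 1) + 1) _ (by simp) (by simp [G.g4])
      (by rw [update_of_ne (by omega), update_of_ne (by omega), g2])
      (by omega) (by omega) (he.dent (!d) y hy _ (hv ▸ q2) (by omega)) ?_
    simp only [update_idem]
    refine Tr.bin (e.ent d x (m / v) * e.n + e.ent (!d) y (m % v)) (by simp [Op.ev])
      (by omega) ?_
    refine Tr.write (b + m) (e.ent d x (m / v) * e.n + e.ent (!d) y (m % v)) (by simp [p1])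
      (by simp) ?_
    refine Tr.bin (b + (m + 1)) (by simp [Op.ev, p1, G.g1, Nat.add_assoc]) (by omega) ?_
    refine Tr.bin (m + 1) (by simp [Op.ev, p2, G.g1]) (by omega) ?_
    refine Tr.skip ⟨fun i h1 h2 h3 => ?_, fun a ha => ?_, by simp, by simp, fun q hq => ?_⟩
    · rw [update_of_ne h3, update_of_ne h2, update_of_ne (by omega), update_of_ne (by omega),
        update_of_ne (by omega), hf i h1 h2 h3]
    · rw [update_of_ne (by omega), hW a ha]
    · rcases Nat.lt_succ_iff_lt_or_eq.1 hq with h | rfl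
      · rw [update_of_ne (by omega), p3 q h]
      · simp
  · rintro r' W' ⟨hf, -, -, p2, -⟩
    rw [p2, hf _ (by omega) (by omega) (by omega), h23]
    omega
  · exact ⟨fun _ _ _ _ => rfl, fun _ _ => rfl, h15, h19, fun q hq => absurd hq (by omega)⟩

theorem expand_spec {e : Env} (he : e.Ok) {d : Bool} {ρ y b lim : ℕ} {r W : ℕ → ℕ}
    (hG : Glob e r) (hy : y < e.n * e.n) (h15 : r (ρ + 15) = b) (h16 : r (ρ + 16) = lim)
    (h18 : r (ρ + 18) = y) (hX : lim ≤ b + e.X) (hb : b ≤ lim) (hB : lim ≤ e.B) :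
    Tr e.w e.D (expand d ρ) r W (fun r' W' =>
      (∀ i < ρ + 19, i ≠ ρ + 12 → i ≠ ρ + 15 → r' i = r i) ∧ (∀ a < b, W' a = W a) ∧
      (lim < b + e.gr.om d y ∧ r' (ρ + 12) = 1 ∧ r' (ρ + 15) = b ∨
        b + e.gr.om d y ≤ lim ∧ r' (ρ + 12) = r (ρ + 12) ∧ r' (ρ + 15) = b + e.gr.om d y ∧
          ∀ m < e.gr.om d y, W' (b + m) = e.gr.nb d y m)) (e.X * (17 + 2) + 2 + 1 + 2 + 12) := by
  have b2 := he.b2
  have b3 := he.b3
  have b4 := he.b4
  have t1 := tb_le d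
  have t2 := tb_le (!d)
  have hn : 0 < e.n := Nat.pos_of_ne_zero fun h => by simp [h] at hy
  have hx1 : y / e.n < e.n := (Nat.div_lt_iff_lt_mul hn).2 hy
  have hx2 : y % e.n < e.n := Nat.mod_lt _ hn
  have hx3 : y / e.n * (e.X + 1) ≤ e.n * (e.X + 1) := Nat.mul_le_mul_right _ hx1.le
  have hx4 : y % e.n * (e.X + 1) ≤ e.n * (e.X + 1) := Nat.mul_le_mul_right _ hx2.le
  have hnn : e.n ≤ e.n * e.n := Nat.le_mul_self _
  have hd : e.deg d (y / e.n) * e.deg (!d) (y % e.n) ≤ e.n * e.n :=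
    Nat.mul_le_mul (he.dpos _ _ hx1).2 (he.dpos _ _ hx2).2
  have g1 := hG.tb d
  have g2 := hG.tb (!d)
  refine Tr.bin (y / e.n) (by simp [Op.ev, h18, hG.g6]) (by omega) ?_
  refine Tr.bin (y / e.n * (e.X + 1)) (by simp [Op.ev, hG.g8]) (by omega) ?_
  refine Tr.bin (y % e.n) (by simp [Op.ev, h18, hG.g6]) (by omega) ?_
  refine Tr.bin (y % e.n * (e.X + 1)) (by simp [Op.ev, hG.g8]) (by omega) ?_
  simp only [update_idem]
  refine Tr.get (y / e.n * (e.X + 1)) _ (by simp) (by simp [hG.g4])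
    (by rw [update_of_ne (by omega), update_of_ne (by omega), g1])
    (by omega) (by omega) (he.ddeg d _ hx1) ?_
  refine Tr.get (y % e.n * (e.X + 1)) _ (by simp) (by simp [hG.g4])
    (by rw [update_of_ne (by omega), update_of_ne (by omega), update_of_ne (by omega), g2])
    (by omega) (by omega) (he.ddeg (!d) _ hx2) ?_
  refine Tr.bin (e.gr.om d y) (by simp [Op.ev, Env.gr]) (by simp only [Env.gr]; omega) ?_
  refine Tr.bin (b + e.gr.om d y) (by simp [Op.ev, h15]) (by simp only [Env.gr]; omega) ?_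
  refine Tr.ite (fun h => ?_) fun h => ?_
  · refine (Tr.const (t := 0) (by omega) (Tr.skip ⟨fun i h1 h2 h3 => ?_, fun _ _ => rfl,
      Or.inl ⟨by simpa [h16] using h, by simp, by simp [h15]⟩⟩)).le (by omega)
    iterate 7 rw [update_of_ne (by omega)]
  have h' : b + e.gr.om d y ≤ lim := by simpa [h16] using h
  refine Tr.const (by omega) ((copy_spec he (x := y / e.n) (y := y % e.n) (b := b)
    (hG.frame (a := 10) (fun j hj => by iterate 7 rw [update_of_ne (by omega)]) le_rfl) hx1 hx2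
    (by simp [h15]) (by simp) (by simp) (by simp) (by simp [Env.gr]) (by simp)
    (by simp only [Env.gr] at h'; omega) (by simp only [Env.gr] at h'; omega)).imp ?_)
  rintro r' W' ⟨k1, k2, k3, k4⟩
  refine ⟨fun i h1 h2 h3 => ?_, k2, Or.inr ⟨h', ?_, k3, k4⟩⟩
  · rw [k1 i h1 h3]
    iterate 7 rw [update_of_ne (by omega)]
  · rw [k1 _ (by omega) (by omega)]
    simp

end Pool.Agent.Lib.MP_a349b4_lc.LG
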