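import Mathlib

/-! Walks, the greedy choice of zero sets, and the family of all stored sets. -/

set_option autoImplicit false

namespace Pool.Agent.Lib.MP_a349b4_lc.LG

open Finset

/-- Powers of a relation. -/
def Rp (R : ℕ → ℕ → Prop) : ℕ → ℕ → ℕ → Prop
  | 0, a, c => a = c
  | i + 1, a, c => ∃ b, Rp R i a b ∧ R b c

theorem Rp.add {R : ℕ → ℕ → Prop} {i a : ℕ} : ∀ {j c : ℕ},
    Rp R (i + j) a c ↔ ∃ b, Rp R i a b ∧ Rp R j b c
  | 0, c => by simp [Rp]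
  | j + 1, c => by
    constructor
    · rintro ⟨b, h1, h2⟩
      obtain ⟨b', k1, k2⟩ := Rp.add.1 h1
      exact ⟨b', k1, b, k2, h2⟩
    · rintro ⟨b, h1, b', h2, h3⟩
      exact ⟨b', Rp.add.2 ⟨b, h1, h2⟩, h3⟩

theorem Rp.head {R : ℕ → ℕ → Prop} {i a c : ℕ} :
    Rp R (i + 1) a c ↔ ∃ b, R a b ∧ Rp R i b c := by
  rw [Nat.add_comm, Rp.add]
  simp [Rp]

theorem Rp.flip {R R' : ℕ → ℕ → Prop} (h : ∀ a b, R a b → R' b a) :
    ∀ {i a b : ℕ}, Rp R i a b → Rp R' i b a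
  | 0, _, _, k => k.symm
  | _ + 1, _, _, ⟨c, k1, k2⟩ => Rp.head.2 ⟨c, h _ _ k2, Rp.flip h k1⟩

/-- A graph on the numbers below `N` with adjacency lists in both directions. -/
structure Gr where
  N : ℕ
  X : ℕ
  om : Bool → ℕ → ℕ
  nb : Bool → ℕ → ℕ → ℕ

namespace Gr

variable (g : Gr)

def Adj (d : Bool) (z z' : ℕ) : Prop := z < g.N ∧ ∃ m < g.om d z, g.nb d z m = z'

def Pos (d : Bool) (p : ℕ) (Θ : Finset ℕ) (x : ℕ) : Prop := ∃ y ∈ Θ, Rp (g.Adj d) p x y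

structure Ok : Prop where
  lt : ∀ d z z', g.Adj d z z' → z' < g.N
  sym : ∀ d z z', g.Adj d z z' → g.Adj (!d) z' z

def Grd (d : Bool) (p i : ℕ) (Θ T : Finset ℕ) : Prop :=
  (∀ u ∈ T, ¬ g.Pos d p Θ u) ∧ ∀ u < g.N, ¬ g.Pos d p Θ u → ∀ S : Finset ℕ,
    (∀ y ∈ S, Rp (g.Adj d) i u y ∧ ¬ g.Pos (!d) i T y) → ∑ y ∈ S, g.om d y ≤ g.X

variable {g}

theorem Ok.rp_lt (h : g.Ok) {d : Bool} : ∀ {i u y : ℕ}, u < g.N → Rp (g.Adj d) i u y → y < g.N
  | 0, _, _, hu, k => k ▸ hu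
  | _ + 1, _, _, _, ⟨_, _, k⟩ => h.lt _ _ _ k

theorem Ok.greedy (h : g.Ok) {Om : ℕ} (d : Bool) (hO : ∑ z ∈ range g.N, g.om d z ≤ Om)
    (p i : ℕ) (Θ : Finset ℕ) :
    ∃ T : Finset ℕ, T.card * (g.X + 1) ≤ Om ∧ (∀ u ∈ T, u < g.N) ∧ g.Grd d p i Θ T := by
  classical
  let cov : Finset ℕ → Finset ℕ := fun T => (range g.N).filter (g.Pos (!d) i T)
  let Z := (range g.N).filter fun u => ¬ g.Pos d p Θ u
  obtain ⟨T, hT, hmax⟩ := exists_max_image
    (Z.powerset.filter fun T => T.card * (g.X + 1) ≤ ∑ y ∈ cov T, g.om d y) card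
    ⟨∅, by simp⟩
  rw [mem_filter, mem_powerset] at hT
  refine ⟨T, hT.2.trans ((sum_le_sum_of_subset (filter_subset _ _)).trans hO),
    fun u hu => mem_range.1 (mem_filter.1 (hT.1 hu)).1,
    fun u hu => (mem_filter.1 (hT.1 hu)).2, fun u hu hz S hS => ?_⟩
  by_contra hc
  have fl : ∀ y ∈ S, Rp (g.Adj (!d)) i y u := fun y hy => (hS y hy).1.flip (h.sym d)
  have huT : u ∉ T := fun k => hc (by
    rw [eq_empty_of_forall_notMem fun y hy => (hS y hy).2 ⟨u, k, fl y hy⟩]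
    simp)
  have h1 : Disjoint (cov T) S := disjoint_left.2 fun y k1 k2 => (hS y k2).2 (mem_filter.1 k1).2
  have h2 : cov T ∪ S ⊆ cov (insert u T) := by
    refine union_subset (fun y hy => ?_) fun y hy => ?_
    · obtain ⟨k1, x, k2, k3⟩ := mem_filter.1 hy
      exact mem_filter.2 ⟨k1, x, mem_insert_of_mem k2, k3⟩
    · exact mem_filter.2 ⟨mem_range.2 (h.rp_lt hu (hS y hy).1), u, mem_insert_self _ _, fl y hy⟩
  have h3 := sum_le_sum_of_subset (f := g.om d) h2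
  rw [sum_union h1] at h3
  have h4 := hmax (insert u T) (mem_filter.2 ⟨mem_powerset.2
    (insert_subset (mem_filter.2 ⟨mem_range.2 hu, hz⟩) hT.1), by
      rw [card_insert_of_notMem huT, Nat.succ_mul]
      have := hT.2
      omega⟩)
  rw [card_insert_of_notMem huT] at h4
  omega

end Gr

/-- The number of child `i` of node `c` of the recursion tree. -/
def ch (c i : ℕ) : ℕ := Nat.pair c i + 1

def info {α : Type} (step : α → ℕ → α) (z : α) : ℕ → α
  | 0 => z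
  | m + 1 => step (info step z (Nat.unpair m).1) (Nat.unpair m).2
decreasing_by exact Nat.lt_succ_of_le (Nat.unpair_left_le m)

theorem info_ch {α : Type} (step : α → ℕ → α) (z : α) (c i : ℕ) :
    info step z (ch c i) = step (info step z c) i := by
  rw [ch, info, Nat.unpair_pair]

theorem info_ind {α : Type} (step : α → ℕ → α) (z : α) (P : α → Prop) (h0 : P z)
    (hs : ∀ a i, P a → P (step a i)) (c : ℕ) : P (info step z c) := by
  induction c using Nat.strong_induction_on with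
  | _ c ih =>
    cases c with
    | zero => rwa [info]
    | succ m =>
      rw [info]
      exact hs _ _ (ih _ (Nat.lt_succ_of_le (Nat.unpair_left_le m)))

/-- Direction, depth and target set of every node of the recursion tree. -/
structure Fam (g : Gr) (m0 : ℕ) (dir : ℕ → Bool) (dep : ℕ → ℕ) (Th : ℕ → Finset ℕ) : Prop where
  card : ∀ c, (Th c).card ≤ m0
  lt : ∀ c, ∀ u ∈ Th c, u < g.N
  cert : ∀ c i, i ≤ dep c / 2 → dir (ch c i) = (!dir c) ∧ dep (ch c i) = i ∧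
    g.Grd (dir c) (dep c) i (Th c) (Th (ch c i))
  cont : ∀ c, dir (ch c (dep c / 2 + 1)) = dir c ∧ dep (ch c (dep c / 2 + 1)) = (dep c - 1) / 2 ∧
    Th (ch c (dep c / 2 + 1)) = Th c

theorem Gr.Ok.fam {g : Gr} (h : g.Ok) {Om m0 : ℕ} (hO : ∀ d, ∑ z ∈ range g.N, g.om d z ≤ Om)
    (hm : Om / (g.X + 1) ≤ m0) (p : ℕ) (Θ : Finset ℕ) (h1 : Θ.card ≤ m0)
    (h2 : ∀ u ∈ Θ, u < g.N) :
    ∃ dir dep Th, Fam g m0 dir dep Th ∧ dir 0 = true ∧ dep 0 = p ∧ Th 0 = Θ := by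
  choose G G1 G2 G3 using fun d => h.greedy d (hO d)
  let step : Bool × ℕ × Finset ℕ → ℕ → Bool × ℕ × Finset ℕ := fun a i =>
    if i ≤ a.2.1 / 2 then (!a.1, i, G a.1 a.2.1 i a.2.2) else (a.1, (a.2.1 - 1) / 2, a.2.2)
  let I := info step (true, p, Θ)
  have key := info_ind step (true, p, Θ) (fun a => a.2.2.card ≤ m0 ∧ ∀ u ∈ a.2.2, u < g.N)
    ⟨h1, h2⟩ (fun a i ha => by
      by_cases hi : i ≤ a.2.1 / 2
      · simp only [step, if_pos hi]
        exact ⟨((Nat.le_div_iff_mul_le (Nat.succ_pos _)).2 (G1 _ _ _ _)).trans hm, G2 _ _ _ _⟩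
      · simpa only [step, if_neg hi] using ha)
  have I0 : I 0 = (true, p, Θ) := by simp only [I]; rw [info]
  refine ⟨fun c => (I c).1, fun c => (I c).2.1, fun c => (I c).2.2,
    ⟨fun c => (key c).1, fun c => (key c).2, fun c i hi => ?_, fun c => ?_⟩,
    by simp only [I0], by simp only [I0], by simp only [I0]⟩
  · have e : I (ch c i) = (!(I c).1, i, G (I c).1 (I c).2.1 i (I c).2.2) :=
      (info_ch _ _ _ _).trans (if_pos hi)
    simp only [e, true_and]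
    exact G3 _ _ _ _
  · have e : I (ch c ((I c).2.1 / 2 + 1)) = ((I c).1, ((I c).2.1 - 1) / 2, (I c).2.2) :=
      (info_ch _ _ _ _).trans (if_neg (Nat.not_succ_le_self _))
    simp only [e, and_self]

end Pool.Agent.Lib.MP_a349b4_lc.LG
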