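import Pool.Agent.Lib.MP_a349b4_lc.LG.Node

/-! The product of a digraph with its reverse. -/

set_option autoImplicit false

namespace Pool.Agent.Lib.MP_a349b4_lc.LG

open Finset

variable {n : ℕ} (E : Finset (Fin n × Fin n))

/-- Edges and loops, on numbers. -/
def R0 (x y : ℕ) : Prop := ∃ (hx : x < n) (hy : y < n), x = y ∨ (⟨x, hx⟩, ⟨y, hy⟩) ∈ E

def Dir : Bool → ℕ → ℕ → Prop
  | true, x, y => R0 E x y
  | false, x, y => R0 E y x

open Classical in
noncomputable def nbr (d : Bool) (x : ℕ) : Finset ℕ := (range n).filter (Dir E d x)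

noncomputable def dg (d : Bool) (x : ℕ) : ℕ := (nbr E d x).card

noncomputable def en (d : Bool) (x j : ℕ) : ℕ := (nbr E d x).toList.getD j 0

variable {E}

theorem Dir.lt {d x y} (h : Dir E d x y) : x < n ∧ y < n := by
  cases d <;> obtain ⟨h1, h2, -⟩ := h <;> exact ⟨‹_›, ‹_›⟩

theorem Dir.symm {d x y} (h : Dir E d x y) : Dir E (!d) y x := by cases d <;> exact h

theorem Dir.refl (d : Bool) {x} (h : x < n) : Dir E d x x := by
  cases d <;> exact ⟨h, h, Or.inl rfl⟩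

theorem mem_nbr {d x y} : y ∈ nbr E d x ↔ Dir E d x y := by
  classical
  rw [nbr, mem_filter, mem_range]
  exact ⟨fun h => h.2, fun h => ⟨h.lt.2, h⟩⟩

theorem dg_le (d x) : dg E d x ≤ n := by
  classical
  exact (card_filter_le _ _).trans (card_range n).le

theorem dg_pos (d) {x} (h : x < n) : 1 ≤ dg E d x := card_pos.2 ⟨x, mem_nbr.2 (Dir.refl d h)⟩

theorem dir_iff {d x y} : Dir E d x y ↔ ∃ j < dg E d x, en E d x j = y := by
  rw [← mem_nbr, ← mem_toList, List.mem_iff_getElem, dg, ← length_toList]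
  refine exists_congr fun j => ⟨fun ⟨h, k⟩ => ⟨h, ?_⟩, fun ⟨h, k⟩ => ⟨h, ?_⟩⟩
  · rw [en, List.getD_eq_getElem _ _ h, k]
  · rwa [en, List.getD_eq_getElem _ _ h] at k

theorem en_lt {d x j} (h : j < dg E d x) : en E d x j < n := (dir_iff.2 ⟨j, h, rfl⟩).lt.2

theorem en_le (d x j) : en E d x j ≤ n := by
  by_cases h : j < dg E d x
  · exact (en_lt h).le
  · rw [en, List.getD_eq_default _ _ (by rw [length_toList]; exact not_lt.1 h)]
    exact Nat.zero_le _

theorem key_facts {a b : ℕ} (ha : a < n) (hb : b < n) :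
    a * n + b < n * n ∧ (a * n + b) / n = a ∧ (a * n + b) % n = b := by
  have : (a + 1) * n ≤ n * n := Nat.mul_le_mul_right _ ha
  rw [Nat.succ_mul] at this
  refine ⟨by omega, ?_, ?_⟩
  · rw [Nat.add_comm, Nat.add_mul_div_right _ _ (by omega), Nat.div_eq_of_lt hb, Nat.zero_add]
  · rw [Nat.add_comm, Nat.add_mul_mod_self_right, Nat.mod_eq_of_lt hb]

theorem key_lt {z : ℕ} (h : z < n * n) : z / n < n ∧ z % n < n :=
  have hn : 0 < n := Nat.pos_of_ne_zero fun k => by simp [k] at h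
  ⟨(Nat.div_lt_iff_lt_mul hn).2 h, Nat.mod_lt _ hn⟩

section
variable {e : Env} (h1 : e.n = n) (h2 : e.deg = dg E) (h3 : e.ent = en E)
include h1 h2 h3

theorem adj_iff {d z z'} : e.gr.Adj d z z' ↔ z < n * n ∧ z' < n * n ∧
    Dir E d (z / n) (z' / n) ∧ Dir E (!d) (z % n) (z' % n) := by
  simp only [Gr.Adj, Env.gr, h1, h2, h3]
  refine and_congr_right fun hz => ⟨?_, ?_⟩
  · rintro ⟨m, hm, rfl⟩
    have p := dg_pos (E := E) (!d) (key_lt hz).2
    have a1 := (Nat.div_lt_iff_lt_mul p).2 hm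
    have a2 := Nat.mod_lt m p
    obtain ⟨k1, k2, k3⟩ := key_facts (en_lt a1) (en_lt a2)
    rw [k2, k3]
    exact ⟨k1, dir_iff.2 ⟨_, a1, rfl⟩, dir_iff.2 ⟨_, a2, rfl⟩⟩
  · rintro ⟨-, k1, k2⟩
    obtain ⟨j1, a1, b1⟩ := dir_iff.1 k1
    obtain ⟨j2, a2, b2⟩ := dir_iff.1 k2
    have : (j1 + 1) * dg E (!d) (z % n) ≤ dg E d (z / n) * dg E (!d) (z % n) :=
      Nat.mul_le_mul_right _ a1
    rw [Nat.succ_mul] at this
    refine ⟨j1 * dg E (!d) (z % n) + j2, by omega, ?_⟩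
    rw [Nat.add_comm _ j2, Nat.add_mul_div_right _ _ (by omega), Nat.add_mul_mod_self_right,
      Nat.div_eq_of_lt a2, Nat.mod_eq_of_lt a2, Nat.zero_add, b1, b2, Nat.div_add_mod']

theorem gr_ok : e.gr.Ok where
  lt d z z' h := by
    have := ((adj_iff h1 h2 h3).1 h).2.1
    simpa only [Env.gr, h1] using this
  sym d z z' h := by
    obtain ⟨k1, k2, k3, k4⟩ := (adj_iff h1 h2 h3).1 h
    exact (adj_iff h1 h2 h3).2 ⟨k2, k1, k3.symm, k4.symm⟩

theorem rp_iff {z : ℕ} (hz : z < n * n) : ∀ {i z' : ℕ}, Rp (e.gr.Adj true) i z z' ↔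
    z' < n * n ∧ Rp (R0 E) i (z / n) (z' / n) ∧ Rp (R0 E) i (z' % n) (z % n)
  | 0, z' => by
    refine ⟨fun h => h ▸ ⟨hz, rfl, rfl⟩, fun ⟨_, k1, k2⟩ => ?_⟩
    have k1' : z / n = z' / n := k1
    have k2' : z' % n = z % n := k2
    change z = z'
    rw [← Nat.div_add_mod z n, k1', ← k2', Nat.div_add_mod]
  | i + 1, z' => by
    constructor
    · rintro ⟨b, k1, k2⟩
      obtain ⟨-, a1, a2⟩ := (rp_iff hz).1 k1
      obtain ⟨-, b1, b2, b3⟩ := (adj_iff h1 h2 h3).1 k2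
      exact ⟨b1, ⟨_, a1, b2⟩, Rp.head.2 ⟨_, b3, a2⟩⟩
    · rintro ⟨k0, ⟨a, k1, k2⟩, k3⟩
      obtain ⟨b, k4, k5⟩ := Rp.head.1 k3
      obtain ⟨c1, c2, c3⟩ := key_facts (Dir.lt (d := true) k2).1 (Dir.lt (d := true) k4).2
      refine ⟨a * n + b, (rp_iff hz).2 ⟨c1, ?_, ?_⟩, (adj_iff h1 h2 h3).2 ⟨c1, k0, ?_, ?_⟩⟩
      · rwa [c2]
      · rwa [c3]
      · rwa [c2]
      · rwa [c3]
end

theorem rp_reach (u : Fin n) : ∀ (k : ℕ) (v : Fin n), Rp (R0 E) k u v ↔ Reach E k u v := by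
  have pad : ∀ (v : Fin n) l k, l ≤ k → Rp (R0 E) l u v → Rp (R0 E) k u v := by
    intro v l k h h0
    induction h with
    | refl => exact h0
    | step _ ih => exact ⟨v, ih, v.2, v.2, Or.inl rfl⟩
  intro k v
  constructor
  · induction k generalizing v with
    | zero => exact fun h => ⟨0, le_rfl, fun _ => u, rfl, Fin.ext h, fun i hi => absurd hi (by omega)⟩
    | succ k ih =>
      rintro ⟨b, k1, hb, hv, k2⟩
      obtain ⟨l, hl, p, p0, p1, p2⟩ := ih ⟨b, hb⟩ k1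
      rcases k2 with k2 | k2
      · exact ⟨l, by omega, p, p0, p1.trans (Fin.ext k2), p2⟩
      refine ⟨l + 1, by omega, fun i => if i ≤ l then p i else v, by simpa using p0, by simp,
        fun i hi => ?_⟩
      rcases Nat.lt_succ_iff_lt_or_eq.1 hi with h | rfl
      · simp only [if_pos h.le, if_pos (Nat.succ_le_of_lt h)]
        exact p2 i h
      · simpa [p1] using k2
  · rintro ⟨l, hl, p, p0, p1, p2⟩
    have : ∀ i ≤ l, Rp (R0 E) i u (p i) := by
      intro i hi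
      induction i with
      | zero => exact congrArg Fin.val p0.symm
      | succ i ih => exact ⟨p i, ih (by omega), (p i).2, (p (i + 1)).2, Or.inr (p2 i hi)⟩
    exact pad v l k hl (p1 ▸ this l le_rfl)

open Classical in
theorem card_pairs (d : Bool) :
    ((range n ×ˢ range n).filter fun p => Dir E d p.1 p.2).card ≤ n + E.card := by
  have h : ((range n ×ˢ range n).filter fun p => Dir E d p.1 p.2) ⊆
      (range n).image (fun x => (x, x)) ∪
        E.image fun p => if d then (p.1.1, p.2.1) else (p.2.1, p.1.1) := by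
    rintro ⟨x, y⟩ hp
    have hp' : Dir E d x y := (mem_filter.1 hp).2
    rw [mem_union, mem_image, mem_image]
    cases d <;> obtain ⟨h1, h2, rfl | h⟩ := hp'
    exacts [Or.inl ⟨_, mem_range.2 h1, rfl⟩, Or.inr ⟨_, h, rfl⟩,
      Or.inl ⟨_, mem_range.2 h1, rfl⟩, Or.inr ⟨_, h, rfl⟩]
  refine (card_le_card h).trans ((card_union_le _ _).trans (Nat.add_le_add ?_ card_image_le))
  exact card_image_le.trans (card_range n).le

theorem sum_dg (d : Bool) : ∑ x ∈ range n, dg E d x ≤ n + E.card := by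
  classical
  refine le_trans (le_of_eq ?_) (card_pairs (E := E) d)
  simp only [dg, nbr, card_filter, sum_product]

theorem key_inj (s : Set ℕ) : Set.InjOn (fun z => (z / n, z % n)) s := fun a _ b _ h => by
  rw [← Nat.div_add_mod a n, ← Nat.div_add_mod b n, (Prod.mk.inj h).1, (Prod.mk.inj h).2]

theorem sum_om (d : Bool) : ∑ z ∈ range (n * n), dg E d (z / n) * dg E (!d) (z % n) ≤
    (n + E.card) * (n + E.card) := by
  refine le_trans ?_ (Nat.mul_le_mul (sum_dg (E := E) d) (sum_dg (E := E) (!d)))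
  rw [sum_mul_sum, ← sum_product', ← sum_image (f := fun p : ℕ × ℕ => dg E d p.1 * dg E (!d) p.2)
    (key_inj (n := n) _)]
  refine sum_le_sum_of_subset fun p hp => ?_
  obtain ⟨z, hz, rfl⟩ := mem_image.1 hp
  have := key_lt (mem_range.1 hz)
  exact mem_product.2 ⟨mem_range.2 this.1, mem_range.2 this.2⟩

open Classical in
/-- The target set at the root. -/
noncomputable def root (E : Finset (Fin n × Fin n)) (k : ℕ) : Finset ℕ :=
  (range (n * n)).filter fun z => Rp (R0 E) (k % 2) (z / n) (z % n)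

theorem card_root (k : ℕ) : (root E k).card ≤ n + E.card := by
  classical
  refine le_trans (card_le_card_of_injOn _ (fun z hz => ?_) (key_inj (n := n) _))
    (card_pairs (E := E) true)
  obtain ⟨h1, h2⟩ := mem_filter.1 hz
  have h3 := key_lt (mem_range.1 h1)
  refine mem_filter.2 ⟨mem_product.2 ⟨mem_range.2 h3.1, mem_range.2 h3.2⟩, ?_⟩
  rcases Nat.mod_two_eq_zero_or_one k with h | h <;> rw [h] at h2
  · exact ⟨h3.1, h3.2, Or.inl h2⟩
  · obtain ⟨b, rfl, h4⟩ := h2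
    exact h4

theorem pos_root {e : Env} (h1 : e.n = n) (h2 : e.deg = dg E) (h3 : e.ent = en E) (k : ℕ)
    (u v : Fin n) : e.gr.Pos true (k / 2) (root E k) (u * n + v) ↔ Reach E k u v := by
  classical
  obtain ⟨c1, c2, c3⟩ := key_facts u.2 v.2
  rw [← rp_reach]
  conv_rhs => rw [show k = k / 2 + k % 2 + k / 2 by omega]
  constructor
  · rintro ⟨y, y1, y2⟩
    obtain ⟨-, a1, a2⟩ := (rp_iff h1 h2 h3 c1).1 y2
    rw [c2] at a1
    rw [c3] at a2
    exact Rp.add.2 ⟨_, Rp.add.2 ⟨_, a1, (mem_filter.1 y1).2⟩, a2⟩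
  · intro h
    obtain ⟨b, k1, k2⟩ := Rp.add.1 h
    obtain ⟨a, k3, k4⟩ := Rp.add.1 k1
    have lt : ∀ i x, Rp (R0 E) i u x → x < n := fun i x h => by
      cases i with
      | zero => exact h ▸ u.2
      | succ i => exact h.choose_spec.2.choose_spec.1
    obtain ⟨d1, d2, d3⟩ := key_facts (lt _ _ k3) (lt _ _ k1)
    refine ⟨a * n + b, mem_filter.2 ⟨mem_range.2 d1, by rwa [d2, d3]⟩,
      (rp_iff h1 h2 h3 c1).2 ⟨d1, by rwa [c2, d2], by rwa [c3, d3]⟩⟩

end Pool.Agent.Lib.MP_a349b4_lc.LG
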