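import Pool.Agent.Lib.MP_a349b4_lc.LG.Comp
import Pool.Agent.Lib.MP_a349b4_lc.LG.Graph

/-! The data seen by the program, and binary search in a stored set. -/

set_option autoImplicit false

namespace Pool.Agent.Lib.MP_a349b4_lc.LG

open Function

structure Env where
  w : ℕ
  D : List ℕ
  n : ℕ
  X : ℕ
  J : ℕ
  K : ℕ
  B : ℕ
  deg : Bool → ℕ → ℕ
  ent : Bool → ℕ → ℕ → ℕ
  Th : ℕ → Finset ℕ

def tb (d : Bool) : ℕ := if d then 1 else 2

/-- The product of the graph with its reverse. -/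
def Env.gr (e : Env) : Gr where
  N := e.n * e.n
  X := e.X
  om d z := e.deg d (z / e.n) * e.deg (!d) (z % e.n)
  nb d z m := e.ent d (z / e.n) (m / e.deg (!d) (z % e.n)) * e.n +
    e.ent (!d) (z % e.n) (m % e.deg (!d) (z % e.n))

structure Env.Ok (e : Env) : Prop where
  X1 : 1 ≤ e.X
  dpos : ∀ d, ∀ x < e.n, 1 ≤ e.deg d x ∧ e.deg d x ≤ e.n
  elt : ∀ d, ∀ x < e.n, ∀ j < e.deg d x, e.ent d x j < e.n
  ddeg : ∀ d, ∀ x < e.n, e.D.getD (x * (e.X + 1) * 4 + tb d) 0 = e.deg d x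
  dent : ∀ d, ∀ x < e.n, ∀ j < e.deg d x, j < e.X →
    e.D.getD ((j + x * (e.X + 1) + 1) * 4 + tb d) 0 = e.ent d x j
  seg : ∀ c ≤ e.K, ∃ f : ℕ → ℕ, StrictMono f ∧
    (∀ j < 2 ^ e.J, e.D.getD ((c * 2 ^ e.J + j) * 4 + 3) 0 = min (f j) (e.n * e.n)) ∧
    ∀ x < e.n * e.n, x ∈ e.Th c ↔ ∃ j < 2 ^ e.J, f j = x
  b1 : (e.K + 1) * 2 ^ e.J * 4 ≤ e.B
  b2 : e.n * (e.X + 1) * 4 ≤ e.B
  b3 : e.n * e.n ≤ e.B
  b4 : 2 * e.B + 8 < 2 ^ e.w

structure Glob (e : Env) (r : ℕ → ℕ) : Prop where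
  g0 : r 0 = 0
  g1 : r 1 = 1
  g2 : r 2 = 2
  g3 : r 3 = 3
  g4 : r 4 = 4
  g6 : r 6 = e.n
  g7 : r 7 = e.X
  g8 : r 8 = e.X + 1
  g9 : r 9 = 2 ^ e.J

theorem Glob.frame {e : Env} {r r' : ℕ → ℕ} {a : ℕ} (h : Glob e r) (hf : ∀ j < a, r' j = r j)
    (ha : 10 ≤ a) : Glob e r' := by
  constructor <;> rw [hf _ (by omega)]
  exacts [h.g0, h.g1, h.g2, h.g3, h.g4, h.g6, h.g7, h.g8, h.g9]

theorem Glob.tb {e : Env} {r : ℕ → ℕ} (h : Glob e r) (d : Bool) : r (tb d) = tb d := by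
  cases d
  exacts [h.g2, h.g1]

theorem tb_le (d : Bool) : tb d ≤ 2 := by cases d <;> simp [tb]

/-- A subroutine: input in register `ρ + 10`, free working memory from the address in register
`ρ + 11`, answer in register `ρ + 12`. -/
def Spec (e : Env) (c : Cmd) (ρ : ℕ) (φ : ℕ → Prop) (Z T : ℕ) : Prop :=
  ∀ r W, Glob e r → r (ρ + 10) < e.n * e.n → r (ρ + 11) + Z ≤ e.B →
    Tr e.w e.D c r W (fun r' W' => (∀ j < ρ + 10, r' j = r j) ∧
      (∀ a < r (ρ + 11), W' a = W a) ∧ (0 < r' (ρ + 12) ↔ φ (r (ρ + 10)))) T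

theorem Spec.mono {e : Env} {c ρ φ Z T Z' T'} (h : Spec e c ρ φ Z T) (hZ : Z ≤ Z') (hT : T ≤ T') :
    Spec e c ρ φ Z' T' := fun r W h1 h2 h3 => (h r W h1 h2 (by omega)).le hT

def get (tab dst src : ℕ) (k : Cmd) : Cmd :=
  .seq (.bin .mul dst src 4) <| .seq (.bin .add dst dst tab) <| .seq (.load dst dst) k

def ifeq (i j : ℕ) (c : Cmd) : Cmd := .ite i j .skip (.ite j i .skip c)

section
variable {w : ℕ} {D : List ℕ} {r W : ℕ → ℕ} {Q : (ℕ → ℕ) → (ℕ → ℕ) → Prop} {t : ℕ} {k : Cmd}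

theorem Tr.get {tab dst src : ℕ} (q v : ℕ) (hq : r src = q) (h4 : r 4 = 4) (ht : r tab = tab)
    (hd : tab ≠ dst) (hb : q * 4 + tab < 2 ^ w) (hv : D.getD (q * 4 + tab) 0 = v)
    (h : Tr w D k (update r dst v) W Q t) : Tr w D (get tab dst src k) r W Q (t + 3) := by
  refine Tr.bin (q * 4) (by simp [Op.ev, hq, h4]) (by omega) ?_
  refine Tr.bin (q * 4 + tab) (by simp [Op.ev, hd, ht]) hb ?_
  refine Tr.load v (by simpa using hv) ?_
  simpa using h

theorem Tr.ifeq {i j : ℕ} (h1 : r i = r j → Tr w D k r W Q t) (h2 : r i ≠ r j → Q r W) :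
    Tr w D (ifeq i j k) r W Q (t + 4) :=
  Tr.ite (fun h => Tr.skip (h2 h.ne)) fun h =>
    Tr.ite (fun h' => Tr.skip (h2 h'.ne')) fun h' => h1 (by omega)
end

def leafBody (ρ : ℕ) : Cmd :=
  .seq (.bin .div (ρ + 14) (ρ + 14) 2) <| .seq (.bin .add (ρ + 15) (ρ + 13) (ρ + 14)) <|
  get 3 (ρ + 16) (ρ + 15) <|
  .ite (ρ + 10) (ρ + 16) .skip (.seq (.bin .add (ρ + 13) (ρ + 15) 0) .skip)

def leaf (c ρ : ℕ) : Cmd :=
  .seq (.const (ρ + 13) c) <| .seq (.bin .mul (ρ + 13) (ρ + 13) 9) <|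
  .seq (.bin .add (ρ + 14) 9 0) <| .seq (.loop 1 (ρ + 14) (leafBody ρ)) <|
  get 3 (ρ + 16) (ρ + 13) <| .seq (.const (ρ + 12) 0) <|
  ifeq (ρ + 10) (ρ + 16) (.seq (.const (ρ + 12) 1) .skip)

theorem leaf_spec {e : Env} (he : e.Ok) {c : ℕ} (hc : c ≤ e.K) (ρ : ℕ) :
    Spec e (leaf c ρ) ρ (· ∈ e.Th c) 0 (14 * (e.J + 1)) := by
  intro r W hG hx _
  obtain ⟨f, f1, f2, f3⟩ := he.seg c hc
  have b1 := he.b1
  have b4 := he.b4
  have hm : 0 < 2 ^ e.J := Nat.two_pow_pos _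
  have hcm : (c + 1) * 2 ^ e.J ≤ (e.K + 1) * 2 ^ e.J := Nat.mul_le_mul_right _ (by omega)
  have hc1 : c ≤ c * 2 ^ e.J := Nat.le_mul_of_pos_right _ hm
  rw [Nat.succ_mul] at hcm
  obtain ⟨x, hxe⟩ : ∃ x, r (ρ + 10) = x := ⟨_, rfl⟩
  rw [hxe] at hx ⊢
  refine Tr.le (t' := 9 + (e.J * (8 + 2) + 2) + 3) ?_ ?_
  · refine Tr.const (by omega) ?_
    refine Tr.bin (c * 2 ^ e.J) (by simp [Op.ev, hG.g9]) (by omega) ?_
    refine Tr.bin (2 ^ e.J) (by simp [Op.ev, hG.g9, hG.g0]) (by omega) ?_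
    refine Tr.seq (Tr.loop (t := 8) (fun m r' W' => W' = W ∧ (∀ j < ρ + 13, r' j = r j) ∧
        ∃ pos, r' (ρ + 13) = c * 2 ^ e.J + pos ∧ r' (ρ + 14) = 2 ^ (e.J - m) ∧
          pos + 2 ^ (e.J - m) ≤ 2 ^ e.J ∧
          ∀ j0, f j0 = x → j0 < 2 ^ e.J → pos ≤ j0 ∧ j0 < pos + 2 ^ (e.J - m)) e.J ?_ ?_ ?_) ?_
    · rintro m r' W' hmJ ⟨rfl, hf, pos, p1, p2, p3, p4⟩
      have G := hG.frame hf (by omega)
      obtain ⟨s, hs⟩ : ∃ s, s = 2 ^ (e.J - (m + 1)) := ⟨_, rfl⟩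
      have hs0 : 0 < s := hs ▸ Nat.two_pow_pos _
      have e2 : 2 ^ (e.J - m) = s * 2 := by
        rw [hs, ← pow_succ]; congr 1; omega
      rw [e2] at p2 p3 p4
      have hx' : r' (ρ + 10) = x := (hf _ (by omega)).trans hxe
      refine ⟨by rw [G.g1, p2]; omega, ?_⟩
      refine Tr.bin s (by simp [Op.ev, p2, G.g2]) (by omega) ?_
      refine Tr.bin (c * 2 ^ e.J + (pos + s)) (by simp [Op.ev, p1, Nat.add_assoc]) (by omega) ?_
      refine Tr.get (c * 2 ^ e.J + (pos + s)) _ (by simp) (by simp [G.g4]) (by simp [G.g3])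
        (by omega) (by omega) (f2 _ (by omega)) ?_
      refine Tr.ite (fun h => Tr.skip ⟨rfl, fun j hj => ?_, pos, ?_, ?_, ?_, fun j0 k1 k2 => ?_⟩)
        fun h => ?_
      · rw [update_of_ne (by omega), update_of_ne (by omega), update_of_ne (by omega), hf j hj]
      · simp [p1]
      · simp [hs]
      · omega
      · have h' : f j0 < f (pos + s) := by
          simp [hx'] at h
          omega
        have := f1.lt_iff_lt.1 h'
        have := p4 j0 k1 k2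
        omega
      refine Tr.bin (c * 2 ^ e.J + (pos + s)) (by simp [Op.ev, G.g0]) (by omega) ?_
      refine Tr.skip ⟨rfl, fun j hj => ?_, pos + s, ?_, ?_, ?_, fun j0 k1 k2 => ?_⟩
      · rw [update_of_ne (by omega), update_of_ne (by omega), update_of_ne (by omega),
          update_of_ne (by omega), hf j hj]
      · simp
      · simp [hs]
      · omega
      · have h' : f (pos + s) ≤ f j0 := by
          simp [hx'] at h
          omega
        have := f1.le_iff_le.1 h'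
        have := p4 j0 k1 k2
        omega
    · rintro r' W' ⟨-, hf, pos, -, p2, -⟩
      rw [(hG.frame hf (by omega)).g1, p2]
      simp
    · refine ⟨rfl, fun j hj => ?_, 0, by simp, by simp, by simp, fun j0 _ k => by simpa using k⟩
      rw [update_of_ne (by omega), update_of_ne (by omega), update_of_ne (by omega)]
    rintro r' W' ⟨rfl, hf, pos, p1, -, p3, p4⟩
    have G := hG.frame hf (by omega)
    have hx' : r' (ρ + 10) = x := (hf _ (by omega)).trans hxe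
    rw [Nat.sub_self, pow_zero] at p3 p4
    refine Tr.get (c * 2 ^ e.J + pos) _ p1 G.g4 G.g3 (by omega) (by omega) (f2 _ (by omega)) ?_
    refine Tr.const (by omega) ?_
    refine Tr.ifeq (t := 1) (fun h => Tr.const (by omega) (Tr.skip ⟨fun j hj => ?_,
      fun _ _ => rfl, ?_⟩)) fun h => ⟨fun j hj => ?_, fun _ _ => rfl, ?_⟩
    · rw [update_of_ne (by omega), update_of_ne (by omega), update_of_ne (by omega),
        hf j (by omega)]
    · simp [hx'] at h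
      simpa using (f3 x hx).2 ⟨pos, by omega, by omega⟩
    · rw [update_of_ne (by omega), update_of_ne (by omega), hf j (by omega)]
    · simp [hx'] at h
      simp only [update_self, lt_self_iff_false, false_iff]
      intro k
      obtain ⟨j0, k1, k2⟩ := (f3 x hx).1 k
      obtain rfl : j0 = pos := by have := p4 j0 k2 k1; omega
      omega
  · omega

end Pool.Agent.Lib.MP_a349b4_lc.LG
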