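import Pool.Agent.Lib.MP_a349b4_lc.LG.Copy

/-! One level of the pruned search. -/

set_option autoImplicit false

namespace Pool.Agent.Lib.MP_a349b4_lc.LG

open Function Finset

theorem Spec.call {e : Env} {f : Cmd} {ρ Z T : ℕ} {φ : ℕ → Prop} (h : Spec e f (ρ + 20) φ Z T)
    {r W : ℕ → ℕ} {y sp : ℕ} (hG : Glob e r) (h30 : r (ρ + 30) = y) (h31 : r (ρ + 31) = sp)
    (hy : y < e.n * e.n) (hB : sp + Z ≤ e.B) :
    Tr e.w e.D f r W (fun r' W' => (∀ j < ρ + 30, r' j = r j) ∧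
      (∀ a < sp, W' a = W a) ∧ (0 < r' (ρ + 32) ↔ φ y)) T := by
  subst h30 h31
  exact h r W hG hy hB

def levelBody (d : Bool) (ρ : ℕ) (f : Cmd) : Cmd :=
  .seq (.read (ρ + 18) (ρ + 17)) <| .seq (.bin .add (ρ + 30) (ρ + 18) 0) <|
  .seq (.bin .add (ρ + 31) (ρ + 16) 0) <| .seq f <| .seq (dup ρ) <|
  .seq (.ite 0 (ρ + 32) .skip (expand d ρ)) <| .seq (.bin .add (ρ + 17) (ρ + 17) 1) .skip

def level (d : Bool) (ρ : ℕ) (f : Cmd) : Cmd :=
  .seq (.bin .add (ρ + 15) (ρ + 14) 0) <| .seq (.bin .add (ρ + 16) (ρ + 14) 7) <|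
  .seq (.bin .add (ρ + 17) (ρ + 13) 0) <| .seq (.loop (ρ + 17) (ρ + 14) (levelBody d ρ f)) <|
  .seq (.bin .add (ρ + 13) (ρ + 14) 0) <| .seq (.bin .add (ρ + 14) (ρ + 15) 0) .skip

/-- The state at the start of level `i` of the search from `x`. -/
def Lv (e : Env) (d : Bool) (p : ℕ) (Θ : Finset ℕ) (x sp ρ i : ℕ) (r W : ℕ → ℕ) : Prop :=
  ∃ a len, r (ρ + 13) = a ∧ r (ρ + 14) = a + len ∧ sp ≤ a ∧ a + len ≤ sp + 1 + i * e.X ∧
    len ≤ e.X ∧ (i = 0 → len ≤ 1) ∧ (∀ m < len, Rp (e.gr.Adj d) i x (W (a + m))) ∧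
    (0 < r (ρ + 12) → e.gr.Pos d p Θ x) ∧
    (r (ρ + 12) = 0 → e.gr.Pos d p Θ x → ∃ m < len, e.gr.Pos d (p - i) Θ (W (a + m)))

theorem level_spec {e : Env} (he : e.Ok) (hg : e.gr.Ok) {d : Bool} {p i x sp ρ Z T0 l : ℕ}
    {Θ T : Finset ℕ} {f : Cmd} (hf : Spec e f (ρ + 20) (e.gr.Pos (!d) i T) Z T0)
    (hT : e.gr.Grd d p i Θ T) (hip : i < p) (hx : x < e.n * e.n)
    (hB : sp + 1 + (i + 1) * e.X + Z ≤ e.B) (hl : e.X ≤ l ∨ i = 0 ∧ 1 ≤ l) {r W : ℕ → ℕ}
    (hG : Glob e r) (hL : Lv e d p Θ x sp ρ i r W) :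
    Tr e.w e.D (level d ρ f) r W (fun r' W' => (∀ j < ρ + 12, r' j = r j) ∧
      (∀ a < sp, W' a = W a) ∧ Lv e d p Θ x sp ρ (i + 1) r' W') (l * (T0 + 56 * e.X) + 7) := by
  classical
  obtain ⟨a, len, h13, h14, hsp, hb, hlen, hl0, hR, hP1, hP0⟩ := hL
  have b3 := he.b3
  have b4 := he.b4
  have X1 := he.X1
  rw [Nat.succ_mul] at hB
  let S : ℕ → Finset ℕ := fun j =>
    ((range j).image fun q => W (a + q)).filter fun y => ¬ e.gr.Pos (!d) i T y
  have hS : ∀ j y, y ∈ S j ↔ (∃ q < j, W (a + q) = y) ∧ ¬ e.gr.Pos (!d) i T y := by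
    intro j y
    simp [S]
  have hll : len ≤ l := by omega
  refine Tr.le (t' := 2 + (len * (T0 + 54 * e.X + 2) + 2) + 3) ?_ (by
    have : len * (T0 + 54 * e.X + 2) ≤ l * (T0 + 56 * e.X) := Nat.mul_le_mul hll (by omega)
    omega)
  refine Tr.bin (a + len) (by simp [Op.ev, h14, hG.g0]) (by omega) ?_
  refine Tr.bin (a + len + e.X) (by simp [Op.ev, h14, hG.g7]) (by omega) ?_
  refine Tr.bin a (by simp [Op.ev, h13, hG.g0]) (by omega) ?_
  refine Tr.seq (Tr.loop (fun j r' W' => (∀ k < ρ + 15, k ≠ ρ + 12 → r' k = r k) ∧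
    (∀ q < a + len, W' q = W q) ∧ r' (ρ + 16) = a + len + e.X ∧ r' (ρ + 17) = a + j ∧
    ∃ c, r' (ρ + 15) = a + len + c ∧ c ≤ e.X ∧ c ≤ ∑ y ∈ S j, e.gr.om d y ∧
      (∀ m < c, Rp (e.gr.Adj d) (i + 1) x (W' (a + len + m))) ∧
      (0 < r' (ρ + 12) → e.gr.Pos d p Θ x) ∧ (r' (ρ + 12) = 0 → r (ρ + 12) = 0 ∧
        ∀ y ∈ S j, ∀ z, e.gr.Adj d y z → ∃ m < c, W' (a + len + m) = z)) len ?_ ?_ ?_) ?_
  · rintro j r1 W1 hj ⟨f1, w1, k16, k17, c, k15, c1, c2, c3, c4, c5⟩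
    have G := hG.frame (a := 10) (fun k hk => f1 k (by omega) (by omega)) le_rfl
    have k13 := (f1 (ρ + 13) (by omega) (by omega)).trans h13
    have k14 := (f1 (ρ + 14) (by omega) (by omega)).trans h14
    obtain ⟨y, hy⟩ : ∃ y, W (a + j) = y := ⟨_, rfl⟩
    have yR : Rp (e.gr.Adj d) i x y := hy ▸ hR j hj
    have yN : y < e.n * e.n := hg.rp_lt hx yR
    refine ⟨by omega, Tr.le (t' := 1 + (e.X * (17 + 2) + 2 + 1 + 2 + 12 + 2) +
      (j * (7 + 2) + 2 + 1) + T0 + 3) ?_ (by omega)⟩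
    refine Tr.read y (by rw [k17, w1 _ (by omega), hy]) ?_
    refine Tr.bin y (by simp [Op.ev, G.g0]) (by omega) ?_
    refine Tr.bin (a + len + e.X) (by simp [Op.ev, G.g0, k16]) (by omega) ?_
    refine Tr.seq (hf.call (y := y) (sp := a + len + e.X)
      (G.frame (a := 10) (fun k hk => by iterate 3 rw [update_of_ne (by omega)]) le_rfl)
      (by simp) (by simp) yN (by omega)) ?_
    rintro r2 W2 ⟨f2, w2, p2⟩
    have f2' : ∀ k < ρ + 18, r2 k = r1 k := fun k hk => by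
      rw [f2 k (by omega)]
      iterate 3 rw [update_of_ne (by omega)]
    have l18 : r2 (ρ + 18) = y := by rw [f2 _ (by omega)]; simp
    refine Tr.seq (dup_spec he (G.frame f2' (by omega)) ((f2' _ (by omega)).trans k13)
      ((f2' _ (by omega)).trans k17) l18 (by omega)) ?_
    rintro r3 W3 ⟨rfl, f3, p3⟩
    have f3' : ∀ k < ρ + 18, r3 k = r1 k := fun k hk => (f3 k (by omega)).trans (f2' k hk)
    have G3 := G.frame f3' (by omega)
    have p4 : 0 < r3 (ρ + 32) ↔ e.gr.Pos (!d) i T y ∨ ∃ q < j, W (a + q) = y := by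
      rw [p3, p2]
      refine or_congr Iff.rfl (exists_congr fun q => and_congr_right fun hq => ?_)
      rw [w2 _ (by omega), w1 _ (by omega)]
    refine Tr.seq (Q' := fun r4 W4 => (∀ k < ρ + 18, k ≠ ρ + 12 → k ≠ ρ + 15 → r4 k = r1 k) ∧
      (∀ q < a + len, W4 q = W q) ∧
      ∃ c, r4 (ρ + 15) = a + len + c ∧ c ≤ e.X ∧ c ≤ ∑ y ∈ S (j + 1), e.gr.om d y ∧
      (∀ m < c, Rp (e.gr.Adj d) (i + 1) x (W4 (a + len + m))) ∧
      (0 < r4 (ρ + 12) → e.gr.Pos d p Θ x) ∧ (r4 (ρ + 12) = 0 → r (ρ + 12) = 0 ∧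
        ∀ y ∈ S (j + 1), ∀ z, e.gr.Adj d y z → ∃ m < c, W4 (a + len + m) = z))
      (Tr.ite (fun h => ?_) fun h => ?_) ?_
    · rw [G3.g0, p4] at h
      have eS : S (j + 1) = S j := by
        ext y'
        rw [hS, hS, Nat.exists_lt_succ_right, hy]
        refine ⟨fun k => ⟨k.1.elim id fun k' => ?_, k.2⟩, fun k => ⟨Or.inl k.1, k.2⟩⟩
        subst k'
        exact h.resolve_left k.2
      rw [eS]
      refine Tr.skip ⟨fun k h1 _ _ => f3' k h1, fun q hq => (w2 q (by omega)).trans (w1 q hq), c,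
        (f3' _ (by omega)).trans k15, c1, c2, fun m hm => ?_, ?_, ?_⟩
      · rw [w2 _ (by omega)]
        exact c3 m hm
      · rwa [f3' _ (by omega)]
      · rw [f3' _ (by omega)]
        refine fun k => ⟨(c5 k).1, fun y' h1 z h2 => ?_⟩
        obtain ⟨m, m1, m2⟩ := (c5 k).2 y' h1 z h2
        exact ⟨m, m1, by rw [w2 _ (by omega), m2]⟩
    · rw [G3.g0, p4, not_or] at h
      have yS : y ∉ S j := fun k => h.2 ((hS _ _).1 k).1
      have eS : S (j + 1) = insert y (S j) := by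
        ext y'
        rw [mem_insert, hS, hS, Nat.exists_lt_succ_right, hy]
        refine ⟨fun k => k.1.elim (fun k' => Or.inr ⟨k', k.2⟩) fun k' => Or.inl k'.symm, ?_⟩
        rintro (rfl | k)
        exacts [⟨Or.inr rfl, h.1⟩, ⟨Or.inl k.1, k.2⟩]
      have eO : ∑ y ∈ S (j + 1), e.gr.om d y = e.gr.om d y + ∑ y ∈ S j, e.gr.om d y := by
        rw [eS, sum_insert yS]
      refine (expand_spec he (b := a + len + c) (lim := a + len + e.X) G3 yN
        ((f3' _ (by omega)).trans k15) ((f3' _ (by omega)).trans k16)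
        ((f3 _ (by omega)).trans l18) (by omega) (by omega) (by omega)).imp ?_
      rintro r4 W4 ⟨f4, w4, p5⟩
      refine ⟨fun k h1 h2 h3 => (f4 k (by omega) h2 h3).trans (f3' k h1),
        fun q hq => (w4 q (by omega)).trans ((w2 q (by omega)).trans (w1 q hq)), ?_⟩
      have old : ∀ m < c, W4 (a + len + m) = W1 (a + len + m) := fun m hm =>
        (w4 _ (by omega)).trans (w2 _ (by omega))
      rcases p5 with ⟨q1, q2, q3⟩ | ⟨q1, q2, q3, q4⟩
      · refine ⟨c, q3, c1, by omega, fun m hm => old m hm ▸ c3 m hm, fun _ => ?_,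
          fun k => absurd k (by omega)⟩
        by_contra hn
        have := hT.2 x hx hn (S (j + 1)) fun y' h1 => by
          obtain ⟨⟨q, s1, s2⟩, s3⟩ := (hS _ _).1 h1
          exact ⟨s2 ▸ hR q (by omega), s3⟩
        simp only [Env.gr] at this eO q1 c2
        omega
      · rw [f3' _ (by omega)] at q2
        refine ⟨c + e.gr.om d y, by omega, by omega, by omega, fun m hm => ?_, q2 ▸ c4,
          fun k => ⟨(c5 (q2 ▸ k)).1, fun y' h1 z h2 => ?_⟩⟩
        · by_cases hmc : m < c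
          · exact old m hmc ▸ c3 m hmc
          · obtain ⟨m', rfl⟩ := Nat.exists_eq_add_of_le (not_lt.1 hmc)
            rw [← Nat.add_assoc, q4 m' (by omega)]
            exact ⟨y, yR, yN, m', by omega, rfl⟩
        · rw [eS, mem_insert] at h1
          rcases h1 with rfl | h1
          · obtain ⟨-, m, m1, m2⟩ := h2
            exact ⟨c + m, by omega, by rw [← Nat.add_assoc, q4 m m1, m2]⟩
          · obtain ⟨m, m1, m2⟩ := (c5 (q2 ▸ k)).2 y' h1 z h2
            exact ⟨m, by omega, by rw [old m m1, m2]⟩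
    rintro r4 W4 ⟨f4, w4, c', d1, d2⟩
    refine Tr.bin (a + (j + 1)) (by
      simp [Op.ev, f4 (ρ + 17) (by omega) (by omega) (by omega), f4 1 (by omega) (by omega)
        (by omega), k17, G.g1, Nat.add_assoc]) (by omega)
      (Tr.skip ⟨fun k h1 h2 => ?_, w4, ?_, by simp, c', by simpa using d1, by simpa using d2⟩)
    · rw [update_of_ne (by omega), f4 k (by omega) h2 (by omega), f1 k h1 h2]
    · rw [update_of_ne (by omega), f4 _ (by omega) (by omega) (by omega), k16]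
  · rintro r1 W1 ⟨f1, -, -, k17, -⟩
    rw [k17, f1 _ (by omega) (by omega), h14]
    omega
  · refine ⟨fun k h1 _ => by iterate 3 rw [update_of_ne (by omega)], fun _ _ => rfl, by simp,
      by simp, 0, by simp, by omega, by omega, fun m hm => absurd hm (by omega),
      by simpa using hP1, fun k => ⟨by simpa using k, fun y hy => ?_⟩⟩
    obtain ⟨⟨q, s1, -⟩, -⟩ := (hS _ _).1 hy
    omega
  rintro r1 W1 ⟨f1, w1, -, -, c, k15, c1, -, c3, c4, c5⟩
  have G := hG.frame (a := 10) (fun k hk => f1 k (by omega) (by omega)) le_rfl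
  have k14 := (f1 (ρ + 14) (by omega) (by omega)).trans h14
  refine Tr.bin (a + len) (by simp [Op.ev, k14, G.g0]) (by omega) ?_
  refine Tr.bin (a + len + c) (by simp [Op.ev, k15, G.g0]) (by omega) ?_
  refine Tr.skip ⟨fun k hk => ?_, fun q hq => w1 q (by omega), a + len, c, by simp, by simp,
    by omega, by rw [Nat.succ_mul]; omega, c1, fun k => absurd k (by omega), c3,
    by simpa using c4, fun k hp => ?_⟩
  · rw [update_of_ne (by omega), update_of_ne (by omega), f1 k (by omega) (by omega)]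
  have k' : r1 (ρ + 12) = 0 := by simpa using k
  obtain ⟨m, m1, θ, m2, m3⟩ := hP0 (c5 k').1 hp
  have yS : W (a + m) ∈ S len := (hS _ _).2 ⟨⟨m, m1, rfl⟩, fun ⟨u, u1, u2⟩ => hT.1 u u1 ⟨θ, m2, by
    have u3 := u2.flip (hg.sym (!d))
    rw [Bool.not_not] at u3
    rw [show p = i + (p - i) by omega]
    exact Rp.add.2 ⟨_, u3, m3⟩⟩⟩
  rw [show p - i = p - (i + 1) + 1 by omega] at m3
  obtain ⟨z, z1, z2⟩ := Rp.head.1 m3
  obtain ⟨m', s1, s2⟩ := (c5 k').2 _ yS z z1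
  exact ⟨m', s1, θ, m2, s2 ▸ z2⟩

end Pool.Agent.Lib.MP_a349b4_lc.LG
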