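import Pool.Agent.Lib.MP_a349b4_lc.LG.Inst

/-! The memory image, the main program and the bounds. -/

set_option autoImplicit false

namespace Pool.Agent.Lib.MP_a349b4_lc.LG

open Finset Function

theorem dm {N b : ℕ} (a : ℕ) (hb : b < N) : (a * N + b) / N = a ∧ (a * N + b) % N = b := by
  constructor
  · rw [Nat.add_comm, Nat.add_mul_div_right _ _ (by omega), Nat.div_eq_of_lt hb, Nat.zero_add]
  · rw [Nat.add_comm, Nat.add_mul_mod_self_right, Nat.mod_eq_of_lt hb]

theorem seg_fun (Θ : Finset ℕ) (N m : ℕ) (h : Θ.card ≤ m) :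
    StrictMono (Nat.nth fun a => a ∈ Θ ∨ N ≤ a) ∧
      ∀ x < N, x ∈ Θ ↔ ∃ j < m, Nat.nth (fun a => a ∈ Θ ∨ N ≤ a) j = x := by
  have hi : {a | a ∈ Θ ∨ N ≤ a}.Infinite :=
    (Set.Ici_infinite N).mono fun a ha => Or.inr ha
  refine ⟨Nat.nth_strictMono hi, fun x hx => ⟨fun k => ?_, ?_⟩⟩
  · refine ⟨Nat.count (fun a => a ∈ Θ ∨ N ≤ a) x, ?_, Nat.nth_count (Or.inl k)⟩
    rw [Nat.count_eq_card_filter_range]
    refine lt_of_le_of_lt (card_le_card fun a ha => ?_) ((card_erase_lt_of_mem k).trans_le h)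
    obtain ⟨h1, h2⟩ := mem_filter.1 ha
    have := mem_range.1 h1
    exact mem_erase.2 ⟨by omega, h2.resolve_right (by omega)⟩
  · rintro ⟨j, -, rfl⟩
    exact (Nat.nth_mem_of_infinite hi j).resolve_right (by omega)

variable {n : ℕ} (E : Finset (Fin n × Fin n)) (X J : ℕ) (Th : ℕ → Finset ℕ)

noncomputable def tab (d : Bool) (q : ℕ) : ℕ :=
  if q % (X + 1) = 0 then dg E d (q / (X + 1)) else en E d (q / (X + 1)) (q % (X + 1) - 1)

noncomputable def cell (a : ℕ) : ℕ :=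
  if a % 4 = 0 then (if a = 0 then n else if a = 4 then X else 2 ^ J)
  else if a % 4 = 3 then
    min (Nat.nth (fun x => x ∈ Th (a / 4 / 2 ^ J) ∨ n * n ≤ x) (a / 4 % 2 ^ J)) (n * n)
  else tab E X (decide (a % 4 = 1)) (a / 4)

theorem cell_tab (d : Bool) (q : ℕ) : cell E X J Th (q * 4 + tb d) = tab E X d q := by
  have h := dm q (show tb d < 4 by have := tb_le d; omega)
  rw [cell, h.1, h.2]
  cases d <;> simp [tb]

theorem cell_le (a : ℕ) : cell E X J Th a ≤ n + X + 2 ^ J + n * n := by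
  have : 0 ≤ 2 ^ J := Nat.zero_le _
  unfold cell tab
  split_ifs
  · omega
  · omega
  · omega
  · exact (min_le_right _ _).trans (Nat.le_add_left _ _)
  · exact (dg_le _ _).trans (by omega)
  · exact (en_le _ _ _).trans (by omega)

noncomputable def env (w K : ℕ) : Env where
  w := w
  D := (List.range (((K + 1) * 2 ^ J + n * (X + 1) + 3) * 4)).map (cell E X J Th)
  n := n
  X := X
  J := J
  K := K
  B := ((K + 1) * 2 ^ J + n * (X + 1) + 3) * 4 + n * n + K * X
  deg := dg E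
  ent := en E
  Th := Th

theorem env_get (w K : ℕ) {a : ℕ} (h : a < ((K + 1) * 2 ^ J + n * (X + 1) + 3) * 4) :
    (env E X J Th w K).D.getD a 0 = cell E X J Th a := by
  simp [env, List.getD_eq_getElem?_getD, List.getElem?_range h]

theorem env_ok (w K : ℕ) (hX : 1 ≤ X) (hc : ∀ c, (Th c).card ≤ 2 ^ J)
    (hw : 2 * (env E X J Th w K).B + 8 < 2 ^ w) : (env E X J Th w K).Ok where
  X1 := hX
  dpos d x hx := ⟨dg_pos d hx, dg_le d x⟩
  elt d x _ j hj := en_lt hj
  ddeg d x hx := by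
    have h1 : (x + 1) * (X + 1) ≤ n * (X + 1) := Nat.mul_le_mul_right _ hx
    have h2 := tb_le d
    have h3 := dm x (Nat.succ_pos X)
    rw [Nat.succ_mul] at h1
    change (env E X J Th w K).D.getD (x * (X + 1) * 4 + tb d) 0 = dg E d x
    rw [env_get _ _ _ _ _ _ (by omega), cell_tab, tab]
    rw [Nat.add_zero] at h3
    rw [if_pos h3.2, h3.1]
  dent d x hx j _ hj := by
    have h1 : (x + 1) * (X + 1) ≤ n * (X + 1) := Nat.mul_le_mul_right _ hx
    have h2 := tb_le d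
    have hj' : j < X := hj
    have h3 := dm x (show j + 1 < X + 1 by omega)
    rw [Nat.succ_mul] at h1
    change (env E X J Th w K).D.getD ((j + x * (X + 1) + 1) * 4 + tb d) 0 = en E d x j
    rw [env_get _ _ _ _ _ _ (by omega), cell_tab, tab,
      show j + x * (X + 1) + 1 = x * (X + 1) + (j + 1) by omega, h3.1, h3.2, if_neg (by omega),
      Nat.add_sub_cancel]
  seg c h := by
    have h0 := seg_fun (Th c) (n * n) (2 ^ J) (hc c)
    refine ⟨_, h0.1, fun j hj => ?_, h0.2⟩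
    have hj' : j < 2 ^ J := hj
    have h1 : (c + 1) * 2 ^ J ≤ (K + 1) * 2 ^ J := Nat.mul_le_mul_right _ (Nat.succ_le_succ h)
    have h2 := dm (c * 2 ^ J + j) (show 3 < 4 by omega)
    have h3 := dm c hj'
    rw [Nat.succ_mul] at h1
    change (env E X J Th w K).D.getD ((c * 2 ^ J + j) * 4 + 3) 0 = min _ (n * n)
    rw [env_get _ _ _ _ _ _ (by omega), cell, h2.1, h2.2, h3.1, h3.2, if_neg (by omega),
      if_pos rfl]
  b1 := by
    change (K + 1) * 2 ^ J * 4 ≤ ((K + 1) * 2 ^ J + n * (X + 1) + 3) * 4 + n * n + K * X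
    omega
  b2 := by
    change n * (X + 1) * 4 ≤ ((K + 1) * 2 ^ J + n * (X + 1) + 3) * 4 + n * n + K * X
    omega
  b3 := by
    change n * n ≤ ((K + 1) * 2 ^ J + n * (X + 1) + 3) * 4 + n * n + K * X
    omega
  b4 := hw

def init (c : Cmd) : Cmd :=
  .seq (.const 4 4) <| .seq (.const 5 0) <| .seq (.load 6 5) <| .seq (.load 7 4) <|
  .seq (.const 5 8) <| .seq (.load 9 5) <| .seq (.bin .mul 10 0 6) <| .seq (.bin .add 10 10 1) <|
  .seq (.const 0 0) <| .seq (.const 1 1) <| .seq (.const 2 2) <| .seq (.const 3 3) <|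
  .seq (.bin .add 8 7 1) <| .seq (.const 11 0) c

theorem init_spec {e : Env} (he : e.Ok) {c φ Z T} (h : Spec e c 0 φ Z T) (hZ : Z ≤ e.B)
    (d0 : e.D.getD 0 0 = e.n) (d4 : e.D.getD 4 0 = e.X) (d8 : e.D.getD 8 0 = 2 ^ e.J)
    {u v : ℕ} (hu : u < e.n) (hv : v < e.n) (W : ℕ → ℕ) :
    Tr e.w e.D (init c) (fun i => if i = 0 then u else if i = 1 then v else 0) W
      (fun r _ => r 0 < r 12 ↔ φ (u * e.n + v)) (T + 14) := by
  have k1 := (key_facts hu hv).1
  have k2 := he.b2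
  have k3 := he.b3
  have k4 := he.b4
  have k5 : 1 * (e.X + 1) ≤ e.n * (e.X + 1) := Nat.mul_le_mul_right _ (by omega)
  refine Tr.const (by omega) ?_
  refine Tr.const (by omega) ?_
  refine Tr.load e.n (by simpa using d0) ?_
  refine Tr.load e.X (by simpa using d4) ?_
  refine Tr.const (by omega) ?_
  refine Tr.load (2 ^ e.J) (by simpa using d8) ?_
  refine Tr.bin (u * e.n) (by simp [Op.ev]) (by omega) ?_
  refine Tr.bin (u * e.n + v) (by simp [Op.ev]) (by omega) ?_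
  refine Tr.const (by omega) ?_
  refine Tr.const (by omega) ?_
  refine Tr.const (by omega) ?_
  refine Tr.const (by omega) ?_
  refine Tr.bin (e.X + 1) (by simp [Op.ev]) (by omega) ?_
  refine Tr.const (by omega) ?_
  refine (h _ W (by constructor <;> simp) (by simpa using k1) (by simpa using hZ)).imp ?_
  rintro r W' ⟨a1, -, a2⟩
  rw [a1 0 (by omega)]
  simpa using a2

def prog (c : Cmd) : List Instr :=
  c.comp 0 ++ [.jlt 0 12 (c.len + 2), .halt false, .halt true]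

theorem prog_run {w D c r W T} {φ : Prop} (h : Tr w D c r W (fun r _ => r 0 < r 12 ↔ φ) T) :
    ∃ b : Bool, run (prog c) w D (T + 2) 0 r W = some b ∧ (b = true ↔ φ) := by
  obtain ⟨r', W', t, h1, h2, h3⟩ := h
  have a0 : At (prog c) 0 (prog c) := fun k _ => by rw [Nat.zero_add]
  have a1 := At.append (l1 := c.comp 0) a0
  rw [Cmd.length_comp] at a1
  have a2 := a1.2.cons
  have a3 := a2.2.cons
  have a4 := a3.2.cons.1
  have s := h1.sim 0 a1.1 2
  rw [run, a2.1] at s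
  by_cases hc : r' 0 < r' 12
  · refine ⟨true, run_mono (t := 2 + t) ?_ (by omega), by simp [← h3, hc]⟩
    simp only [hc, if_true] at s
    rw [s, run, show c.len + 2 = 0 + c.len + 1 + 1 by omega, a4]
  · refine ⟨false, run_mono (t := 2 + t) ?_ (by omega), by simp [← h3, hc]⟩
    simp only [hc, if_false] at s
    rw [s, run, a3.1]

theorem log_bound (c n m : ℕ) (h : m ≤ (c + 1) * n * ((c + 1) * n)) :
    Nat.log 2 m + 2 ≤ (2 * c + 3) * (Nat.log 2 n + 1) := by
  have h1 : n < 2 ^ (Nat.log 2 n + 1) := Nat.lt_pow_succ_log_self (by omega) n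
  have h2 : (c + 1) * n < 2 ^ (c + (Nat.log 2 n + 1)) := by
    rw [pow_add]
    exact Nat.mul_lt_mul_of_le_of_lt Nat.lt_two_pow_self h1 (Nat.two_pow_pos c)
  have h3 : m < 2 ^ (c + (Nat.log 2 n + 1) + (c + (Nat.log 2 n + 1))) := by
    rw [pow_add]
    exact h.trans_lt (Nat.mul_lt_mul'' h2 h2)
  have h4 := Nat.log_lt_of_lt_pow' (by omega) h3
  have h5 : (2 * c + 3) * (Nat.log 2 n + 1) =
    2 * (c * Nat.log 2 n) + 2 * c + 3 * Nat.log 2 n + 3 := by ring
  omega

theorem main (k c : ℕ) : ∃ (P : List Instr) (C : ℕ), ∀ (n X w : ℕ) (E : Finset (Fin n × Fin n)),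
    E.card ≤ c * n → 1 ≤ X → X ^ 2 ≤ n → C * n ^ 2 ≤ 2 ^ w →
    ∃ D : List ℕ, Answers P w k E D (C * X ^ Nat.log 2 k * (Nat.log 2 n + 1)) ∧
      D.length * X ≤ C * n ^ 2 := by
  have hk : k / 2 < 2 ^ Nat.log 2 k := by
    have := Nat.lt_pow_succ_log_self (b := 2) (by omega) k
    omega
  obtain ⟨cmd, K, H⟩ := exists_prog _ 0 0 true _ hk
  obtain ⟨A, hA⟩ : ∃ A, A = (K + 1) * ((c + 1) * (c + 1)) := ⟨_, rfl⟩
  refine ⟨prog (init cmd), 16 * A + 2 * K + K * (2 * c + 3) + 60,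
    fun n X w E hE hX hn hw => ?_⟩
  obtain ⟨m, hm⟩ : ∃ m, m = (c + 1) * n * ((c + 1) * n) / X := ⟨_, rfl⟩
  obtain ⟨J, hJ⟩ : ∃ J, J = Nat.log 2 m + 1 := ⟨_, rfl⟩
  rw [pow_two] at hn hw
  have x1 : X ≤ n := (Nat.le_mul_self X).trans hn
  have x2 : n ≤ n * n := Nat.le_mul_self n
  have e1 : n + E.card ≤ (c + 1) * n := by rw [Nat.succ_mul]; omega
  have m1 : (c + 1) * n ≤ m :=
    hm ▸ (Nat.le_div_iff_mul_le hX).2 (Nat.mul_le_mul_left _ (by omega))
  have m2 : m < 2 ^ J := hJ ▸ Nat.lt_pow_succ_log_self (by omega) m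
  have m3 : 2 ^ J ≤ m * 2 := by
    rw [hJ, pow_succ]
    exact Nat.mul_le_mul_right _ (Nat.pow_log_le_self 2 (by omega))
  have m4 : m * X ≤ (c + 1) * n * ((c + 1) * n) := hm ▸ Nat.div_mul_le_self _ _
  have q1 : (K + 1) * 2 ^ J * X ≤ 2 * (A * (n * n)) := by
    calc (K + 1) * 2 ^ J * X ≤ (K + 1) * (m * 2) * X := by gcongr
      _ = 2 * ((K + 1) * (m * X)) := by ring
      _ ≤ 2 * ((K + 1) * ((c + 1) * n * ((c + 1) * n))) := by gcongr
      _ = _ := by rw [hA]; ring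
  have q2 : n * (X + 1) * X ≤ 2 * (n * n) := by
    calc n * (X + 1) * X = n * (X * X) + n * X := by ring
      _ ≤ n * n + n * n := by gcongr
      _ = _ := by ring
  have q3 : (K + 1) * 2 ^ J ≤ (K + 1) * 2 ^ J * X := Nat.le_mul_of_pos_right _ hX
  have q4 : n * (X + 1) ≤ n * (X + 1) * X := Nat.le_mul_of_pos_right _ hX
  have q5 : K * X ≤ K * (n * n) := Nat.mul_le_mul_left _ (by omega)
  have q6 : 2 ^ J ≤ (K + 1) * 2 ^ J := Nat.le_mul_of_pos_left _ (Nat.succ_pos K)
  have c1 : (16 * A + 2 * K + K * (2 * c + 3) + 60) * (n * n) = 16 * (A * (n * n)) +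
    2 * (K * (n * n)) + K * (2 * c + 3) * (n * n) + 60 * (n * n) := by ring
  have g0 : (env E X J (fun _ => ∅) w K).gr.Ok := gr_ok (E := E) rfl rfl rfl
  obtain ⟨dir, dep, Th, hF, f1, f2, f3⟩ := g0.fam (m0 := 2 ^ J)
    (fun d => (sum_om d).trans (Nat.mul_le_mul e1 e1))
    (((Nat.div_le_div_left (Nat.le_succ X) hX).trans hm.ge).trans m2.le) (k / 2) (root E k)
    ((card_root k).trans (by omega)) (fun u hu => by
      classical
      exact mem_range.1 (mem_filter.1 hu).1)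
  have hB : 2 * (((K + 1) * 2 ^ J + n * (X + 1) + 3) * 4 + n * n + K * X) + 8 < 2 ^ w := by omega
  have ok := env_ok E X J Th w K hX hF.card hB
  have sp := H _ ok g0 dir dep hF f1 f2 le_rfl
  refine ⟨(env E X J Th w K).D, ⟨fun x hx => ?_, fun u v W => ?_⟩, ?_⟩
  · obtain ⟨a, -, rfl⟩ := List.mem_map.1 hx
    have := cell_le E X J Th a
    omega
  · obtain ⟨b, b1, b2⟩ := prog_run (init_spec ok sp (Nat.le_add_left _ _)
      ((env_get _ _ _ _ _ _ (by omega)).trans (by simp [cell, env]))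
      ((env_get _ _ _ _ _ _ (by omega)).trans (by simp [cell, env]))
      ((env_get _ _ _ _ _ _ (by omega)).trans (by simp [cell, env])) u.2 v.2 W)
    refine ⟨b, run_mono b1 ?_, b2.trans ?_⟩
    · have t1 := log_bound c n m ((Nat.le_mul_of_pos_right _ hX).trans m4)
      have t2 : 0 < X ^ Nat.log 2 k * (Nat.log 2 n + 1) := by positivity
      have t3 : K * (X ^ Nat.log 2 k * (J + 1)) ≤
          K * (2 * c + 3) * (X ^ Nat.log 2 k * (Nat.log 2 n + 1)) := by
        calc _ ≤ K * (X ^ Nat.log 2 k * ((2 * c + 3) * (Nat.log 2 n + 1))) := by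
              gcongr
              omega
          _ = _ := by ring
      change K * (X ^ Nat.log 2 k * (J + 1)) + 14 + 2 ≤ _
      rw [Nat.mul_assoc, Nat.add_mul, Nat.add_mul]
      omega
    · have := pos_root (e := env E X J Th w K) (E := E) rfl rfl rfl k u v
      rw [← f3] at this
      exact this
  · have l1 : (env E X J Th w K).D.length * X =
        4 * ((K + 1) * 2 ^ J * X) + 4 * (n * (X + 1) * X) + 12 * X := by
      simp only [env, List.length_map, List.length_range]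
      ring
    rw [l1, pow_two]
    omega

end Pool.Agent.Lib.MP_a349b4_lc.LG
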