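import Pool.Agent.Lib.MP_a349b4_lc.LG.Level

/-! The search at one node of the recursion tree, and the recursion. -/

set_option autoImplicit false

namespace Pool.Agent.Lib.MP_a349b4_lc.LG

open Function Finset

def levels (d : Bool) (ρ : ℕ) (f : ℕ → Cmd) : ℕ → Cmd
  | 0 => .skip
  | i + 1 => .seq (levels d ρ f i) (level d ρ (f i))

def finBody (ρ : ℕ) (g : Cmd) : Cmd :=
  .seq (.read (ρ + 30) (ρ + 17)) <| .seq (.bin .add (ρ + 31) (ρ + 14) 0) <| .seq g <|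
  .seq (.ite 0 (ρ + 32) (.seq (.const (ρ + 12) 1) .skip) .skip) <|
  .seq (.bin .add (ρ + 17) (ρ + 17) 1) .skip

def node (d : Bool) (ρ t : ℕ) (f : ℕ → Cmd) (g : Cmd) : Cmd :=
  .seq (.write (ρ + 11) (ρ + 10)) <| .seq (.bin .add (ρ + 13) (ρ + 11) 0) <|
  .seq (.bin .add (ρ + 14) (ρ + 11) 1) <| .seq (.const (ρ + 12) 0) <|
  .seq (levels d ρ f (t + 1)) <| .seq (.bin .add (ρ + 17) (ρ + 13) 0) <|
  .loop (ρ + 17) (ρ + 14) (finBody ρ g)

theorem levels_spec {e : Env} (he : e.Ok) (hg : e.gr.Ok) {d : Bool} {p x sp ρ Z T0 l : ℕ}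
    {Θ : Finset ℕ} {T : ℕ → Finset ℕ} {f : ℕ → Cmd} (hp : 0 < p)
    (hf : ∀ i ≤ p / 2, Spec e (f i) (ρ + 20) (e.gr.Pos (!d) i (T i)) Z T0 ∧
      e.gr.Grd d p i Θ (T i)) (hx : x < e.n * e.n)
    (hB : sp + 1 + (p / 2 + 1) * e.X + Z ≤ e.B) (hl : e.X ≤ l ∨ p / 2 = 0 ∧ 1 ≤ l)
    {r W : ℕ → ℕ} (hG : Glob e r) (hL : Lv e d p Θ x sp ρ 0 r W) : ∀ j ≤ p / 2 + 1,
    Tr e.w e.D (levels d ρ f j) r W (fun r' W' => (∀ k < ρ + 12, r' k = r k) ∧
      (∀ a < sp, W' a = W a) ∧ Lv e d p Θ x sp ρ j r' W') (j * (l * (T0 + 56 * e.X) + 7))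
  | 0, _ => Tr.skip ⟨fun _ _ => rfl, fun _ _ => rfl, hL⟩
  | j + 1, hj => by
    refine (Tr.seq (t' := l * (T0 + 56 * e.X) + 7)
      (levels_spec he hg hp hf hx hB hl hG hL j (by omega)) ?_).le (by rw [Nat.succ_mul j]; omega)
    rintro r1 W1 ⟨f1, w1, L1⟩
    have : (j + 1) * e.X ≤ (p / 2 + 1) * e.X := Nat.mul_le_mul_right _ hj
    exact (level_spec he hg (hf j (by omega)).1 (hf j (by omega)).2 (by omega) hx (by omega)
      (by omega) (hG.frame f1 (by omega)) L1).imp fun r2 W2 h =>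
      ⟨fun k hk => (h.1 k hk).trans (f1 k hk), fun a ha => (h.2.1 a ha).trans (w1 a ha), h.2.2⟩

theorem node_spec {e : Env} (he : e.Ok) (hg : e.gr.Ok) {d : Bool} {p ρ Z T0 l : ℕ}
    {Θ : Finset ℕ} {T : ℕ → Finset ℕ} {f : ℕ → Cmd} {g : Cmd} (hp : 0 < p)
    (hf : ∀ i ≤ p / 2, Spec e (f i) (ρ + 20) (e.gr.Pos (!d) i (T i)) Z T0 ∧
      e.gr.Grd d p i Θ (T i)) (hc : Spec e g (ρ + 20) (e.gr.Pos d ((p - 1) / 2) Θ) Z T0)
    (hl : e.X ≤ l ∨ p / 2 = 0 ∧ 1 ≤ l) :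
    Spec e (node d ρ (p / 2) f g) ρ (e.gr.Pos d p Θ) (1 + (p / 2 + 1) * e.X + Z)
      ((p / 2 + 1) * (l * (T0 + 56 * e.X) + 7) + e.X * (T0 + 8) + 7) := by
  intro r W hG hx hB
  have b3 := he.b3
  have b4 := he.b4
  have X1 := he.X1
  obtain ⟨x, hxe⟩ : ∃ x, r (ρ + 10) = x := ⟨_, rfl⟩
  obtain ⟨sp, hsp⟩ : ∃ x, r (ρ + 11) = x := ⟨_, rfl⟩
  rw [hxe] at hx ⊢
  rw [hsp] at hB ⊢
  refine Tr.le (t' := e.X * (T0 + 6 + 2) + 2 + 1 + (p / 2 + 1) * (l * (T0 + 56 * e.X) + 7) + 4)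
    ?_ (by rw [show T0 + 6 + 2 = T0 + 8 from rfl]; omega)
  refine Tr.write sp x hsp hxe ?_
  refine Tr.bin sp (by simp [Op.ev, hsp, hG.g0]) (by omega) ?_
  refine Tr.bin (sp + 1) (by simp [Op.ev, hsp, hG.g1]) (by omega) ?_
  refine Tr.const (by omega) ?_
  refine Tr.seq (levels_spec (x := x) (sp := sp) he hg hp hf hx (by omega) hl
    (hG.frame (a := 10) (fun k hk => by iterate 3 rw [update_of_ne (by omega)]) le_rfl)
    ⟨sp, 1, by simp, by simp, le_rfl, by omega, X1, fun _ => le_rfl, fun m hm => ?_, by simp,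
      fun _ k => ⟨0, Nat.one_pos, by simpa using k⟩⟩ _ le_rfl) ?_
  · obtain rfl : m = 0 := by omega
    simp [Rp]
  rintro r0 W0 ⟨f0, w0, a, len, h13, h14, hsa, hb, hlen, -, hR, hP1, hP0⟩
  have f0' : ∀ k < ρ + 12, r0 k = r k := fun k hk => by
    rw [f0 k hk]
    iterate 3 rw [update_of_ne (by omega)]
  have w0' : ∀ q < sp, W0 q = W q := fun q hq => by rw [w0 q hq, update_of_ne (by omega)]
  have G0 := hG.frame f0' (by omega)
  rw [show p - (p / 2 + 1) = (p - 1) / 2 by omega] at hP0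
  refine Tr.bin a (by simp [Op.ev, h13, G0.g0]) (by omega) ?_
  refine ((Tr.loop (t := T0 + 6) (fun j r' W' => (∀ k < ρ + 17, k ≠ ρ + 12 → r' k = r0 k) ∧
    (∀ q < a + len, W' q = W0 q) ∧ r' (ρ + 17) = a + j ∧ (0 < r' (ρ + 12) ↔ 0 < r0 (ρ + 12) ∨
      ∃ m < j, e.gr.Pos d ((p - 1) / 2) Θ (W0 (a + m)))) len ?_ ?_ ?_).imp ?_).le (by gcongr)
  · rintro j r1 W1 hj ⟨f1, w1, k17, p1⟩
    have G := G0.frame (a := 10) (fun k hk => f1 k (by omega) (by omega)) le_rfl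
    have k14 := (f1 (ρ + 14) (by omega) (by omega)).trans h14
    obtain ⟨y, hy⟩ : ∃ y, W0 (a + j) = y := ⟨_, rfl⟩
    have yN : y < e.n * e.n := hg.rp_lt hx (hy ▸ hR j hj)
    refine ⟨by omega, Tr.le (t' := 1 + (1 + 2) + T0 + 2) ?_ (by omega)⟩
    refine Tr.read y (by rw [k17, w1 _ (by omega), hy]) ?_
    refine Tr.bin (a + len) (by simp [Op.ev, G.g0, k14]) (by omega) ?_
    refine Tr.seq (hc.call (y := y) (sp := a + len)
      (G.frame (a := 10) (fun k hk => by iterate 2 rw [update_of_ne (by omega)]) le_rfl)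
      (by simp) (by simp) yN (by omega)) ?_
    rintro r2 W2 ⟨f2, w2, p2⟩
    have f2' : ∀ k < ρ + 18, r2 k = r1 k := fun k hk => by
      rw [f2 k (by omega)]
      iterate 2 rw [update_of_ne (by omega)]
    have G2 := G.frame f2' (by omega)
    refine Tr.seq (Q' := fun r3 W3 => W3 = W2 ∧ (∀ k < ρ + 18, k ≠ ρ + 12 → r3 k = r1 k) ∧
      (0 < r3 (ρ + 12) ↔ 0 < r1 (ρ + 12) ∨ e.gr.Pos d ((p - 1) / 2) Θ y))
      (Tr.ite (fun h => ?_) fun h => ?_) ?_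
    · rw [G2.g0, p2] at h
      exact Tr.const (by omega) (Tr.skip ⟨rfl, fun k h1 h2 => by
        rw [update_of_ne h2, f2' k h1], by simp [h]⟩)
    · rw [G2.g0, p2] at h
      exact Tr.skip ⟨rfl, fun k h1 _ => f2' k h1, by simp [h, f2' (ρ + 12) (by omega)]⟩
    rintro r3 W3 ⟨rfl, f3, p3⟩
    refine Tr.bin (a + (j + 1)) (by
      simp [Op.ev, f3 (ρ + 17) (by omega) (by omega), f3 1 (by omega) (by omega), k17, G.g1,
        Nat.add_assoc]) (by omega)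
      (Tr.skip ⟨fun k h1 h2 => ?_, fun q hq => (w2 q hq).trans (w1 q hq), by simp, ?_⟩)
    · rw [update_of_ne (by omega), f3 k (by omega) h2, f1 k h1 h2]
    · rw [update_of_ne (by omega), p3, p1, or_assoc, Nat.exists_lt_succ_right, hy]
  · rintro r1 W1 ⟨f1, -, k17, -⟩
    rw [k17, f1 _ (by omega) (by omega), h14]
    omega
  · exact ⟨fun k h1 _ => by rw [update_of_ne (by omega)], fun _ _ => rfl, by simp, by simp⟩
  rintro r1 W1 ⟨f1, w1, -, p1⟩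
  refine ⟨fun k hk => (f1 k (by omega) (by omega)).trans (f0' k (by omega)),
    fun q hq => (w1 q (by omega)).trans (w0' q hq), p1.trans ⟨?_, fun k => ?_⟩⟩
  · rintro (k | ⟨m, m1, θ, m2, m3⟩)
    · exact hP1 k
    · refine ⟨θ, m2, ?_⟩
      rw [show p = p / 2 + 1 + (p - 1) / 2 by omega]
      exact Rp.add.2 ⟨_, hR m m1, m3⟩
  · rcases Nat.eq_zero_or_pos (r0 (ρ + 12)) with h | h
    exacts [Or.inr (hP0 h k), Or.inl h]

theorem exists_prog : ∀ (s c ρ : ℕ) (d : Bool) (p : ℕ), p < 2 ^ s → ∃ (cmd : Cmd) (K : ℕ),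
    ∀ e : Env, e.Ok → e.gr.Ok → ∀ dir dep, Fam e.gr (2 ^ e.J) dir dep e.Th → dir c = d →
      dep c = p → K ≤ e.K →
      Spec e cmd ρ (e.gr.Pos d p (e.Th c)) (K * e.X) (K * (e.X ^ s * (e.J + 1))) := by
  intro s
  induction s with
  | zero =>
    intro c ρ d p hp
    obtain rfl : p = 0 := by omega
    refine ⟨leaf c ρ, c + 14, fun e he _ _ _ _ _ _ hK => ?_⟩
    have : e.gr.Pos d 0 (e.Th c) = (· ∈ e.Th c) := by
      ext x
      simp [Gr.Pos, Rp]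
    rw [this]
    exact (leaf_spec he (by omega) ρ).mono (Nat.zero_le _)
      (by rw [pow_zero, one_mul]; exact Nat.mul_le_mul_right _ (by omega))
  | succ s ih =>
    intro c ρ d p hp
    rcases Nat.eq_zero_or_pos p with rfl | hp0
    · obtain ⟨cmd, K, h⟩ := ih c ρ d 0 (Nat.two_pow_pos _)
      refine ⟨cmd, K, fun e he hg dir dep hF h1 h2 hK =>
        (h e he hg dir dep hF h1 h2 hK).mono le_rfl ?_⟩
      have := he.X1
      gcongr
      omega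
    rw [pow_succ] at hp
    have : Nonempty Cmd := ⟨.skip⟩
    choose! f Kf hf using fun i => ih (ch c i) (ρ + 20) (!d) i
    obtain ⟨g, Kg, hc⟩ := ih (ch c (p / 2 + 1)) (ρ + 20) d ((p - 1) / 2) (by omega)
    obtain ⟨K1, hK1⟩ : ∃ K1, K1 = ∑ i ∈ range (p / 2 + 1), Kf i + Kg := ⟨_, rfl⟩
    have k1 : ∀ i ≤ p / 2, Kf i ≤ K1 := fun i hi => by
      have := single_le_sum (f := Kf) (fun _ _ => Nat.zero_le _)
        (mem_range.2 (show i < p / 2 + 1 by omega))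
      omega
    have k2 : Kg ≤ K1 := by omega
    refine ⟨node d ρ (p / 2) f g, (p / 2 + 1) * (K1 + 63) + K1 + 15,
      fun e he hg dir dep hF h1 h2 hK => ?_⟩
    have X1 := he.X1
    refine (node_spec (T := fun i => e.Th (ch c i)) (Z := K1 * e.X)
      (T0 := K1 * (e.X ^ s * (e.J + 1))) (l := min e.X (e.X ^ s)) he hg hp0 (fun i hi => ?_) ?_
      ?_).mono ?_ ?_
    · obtain ⟨q1, q2, q3⟩ := hF.cert c i (h2 ▸ hi)
      rw [h1] at q1
      rw [h1, h2] at q3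
      have := k1 i hi
      exact ⟨(hf i (by omega) e he hg dir dep hF q1 q2 (by omega)).mono (by gcongr) (by gcongr),
        q3⟩
    · obtain ⟨q1, q2, q3⟩ := hF.cont c
      rw [h2] at q1 q2 q3
      rw [← q3]
      exact (hc e he hg dir dep hF (q1.trans h1) q2 (by omega)).mono (by gcongr) (by gcongr)
    · rcases s with _ | s
      · exact Or.inr ⟨by omega, by simpa using X1⟩
      · exact Or.inl (le_min le_rfl (Nat.le_self_pow (Nat.succ_ne_zero _) _))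
    · nlinarith [Nat.zero_le (p / 2 * K1 * e.X), Nat.zero_le (p / 2 * e.X), Nat.zero_le (K1 * e.X)]
    · obtain ⟨Y, hY⟩ : ∃ Y, Y = e.X ^ (s + 1) * (e.J + 1) := ⟨_, rfl⟩
      have y1 : e.X * (K1 * (e.X ^ s * (e.J + 1))) = K1 * Y := by rw [hY]; ring
      have y2 : e.X ^ s * e.X ≤ Y := by
        rw [hY, pow_succ]; exact Nat.le_mul_of_pos_right _ (Nat.succ_pos _)
      have y3 : e.X ≤ Y := (Nat.le_mul_of_pos_left _ (Nat.pow_pos X1)).trans y2
      have y4 : min e.X (e.X ^ s) * (K1 * (e.X ^ s * (e.J + 1)) + 56 * e.X) + 7 ≤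
          (K1 + 63) * Y := by
        have a1 : min e.X (e.X ^ s) * (K1 * (e.X ^ s * (e.J + 1))) ≤ K1 * Y :=
          y1 ▸ Nat.mul_le_mul_right _ (min_le_left _ _)
        have a2 : min e.X (e.X ^ s) * e.X ≤ Y :=
          (Nat.mul_le_mul_right _ (min_le_right _ _)).trans y2
        rw [Nat.mul_add, Nat.add_mul, Nat.mul_left_comm _ 56]
        omega
      have y5 := Nat.mul_le_mul_left (p / 2 + 1) y4
      rw [← hY, Nat.mul_add e.X, y1, Nat.add_mul _ 15 Y, Nat.add_mul _ K1 Y,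
        Nat.mul_assoc (p / 2 + 1)]
      omega

end Pool.Agent.Lib.MP_a349b4_lc.LG
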